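import Pool.Agent.Helper15.RBC.GoalsE
import Pool.Agent.Helper15.GS.AsmP

/-! # RBC: assembly of the part after the projector -/

open Complex Metric Set Filter Topology MeasureTheory
open scoped ContDiff ComplexConjugate ComplexOrder Manifold Matrix

namespace Pool.Agent.Helper15.RBC

open Pool.Agent.Helper95.Lin Pool.Agent.Helper16.Abund Pool.Agent.Helper92.Orb
  Pool.Agent.Helper10.SP Pool.Agent.Helper95.RK Pool.Agent.Helper57.HS
  Pool.Agent.Helper15.HS Pool.Agent.Helper15.GS Pool.Agent.Helper57.RBC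

universe u

theorem rpost (hRB4 : S_RB4.{u}) (hRB5 : S_RB5.{u}) (hRNUL : S_RNUL.{u}) (hGAL : S_GAL)
    (hRPF : S_RPF.{u}) (hLMF : S_LMF) (hDETI : S_DETI.{u}) : S_RPOSTE.{u} := by
  intro n hn T G _ R H h hD k P hk hP
  have hTo : IsOpen T := hD.ket.et.isOpen
  rcases Nat.lt_or_ge k n with hlt | hge
  · left
    obtain ⟨Q, hQ⟩ := hRB4 hn T R H h hD k P hP
    have hld : ContDiffOn ℝ ∞ (ld Q) T := by
      obtain ⟨d1, d2, -⟩ := hDETI T R Q hQ.1
      exact d2.log fun x hx => (d1 x hx).2.1.ne'
    have hlev : ∀ x ∈ T, ∀ e, ((lev (ld Q) x e : ℝ) : ℂ) = hermi (Q x - P x * h x) e e := by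
      intro x hx e
      have hL : LM (ld Q) x = Q x - P x * h x := by
        have h1 := hQ.2 x hx
        unfold rho at h1
        rw [h1]
        simp
      rw [(hLMF T hTo (ld Q) hld).2.2.1 x hx e, hL]
    refine ⟨hlt, Q, hQ.1, fun x hx => ?_, fun x hx e he => ?_⟩
    · have hb5 := (hRB5 T R H h hD k P hP Q hQ x hx).1
      obtain ⟨hpsd, V, hV1, hV2⟩ := (hGAL k (h x) (Q x) (P x) (hD.her.posDef x hx)
        (hQ.1.posDef x hx) (hP.proj x hx) (hP.herm x hx) (hP.tr x hx)).2 hb5
      refine ⟨fun e => ?_, V, hV1, fun e => ?_⟩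
      · have h1 := congrArg Complex.re (hlev x hx e)
        rw [Complex.ofReal_re] at h1
        rw [h1]
        exact hermi_re_nonneg hpsd e
      · rw [← hV2 e, ← hlev x hx e]
        exact Complex.ofReal_eq_zero.symm
    · refine hRNUL T R H h hD k P hP Q hQ x hx e ?_
      rw [← hlev x hx e, he, Complex.ofReal_zero]
  · right
    have hkn : k = n := le_antisymm hk hge
    have hP1 : ∀ x ∈ T, P x = 1 := fun x hx =>
      (hRPF T R H h hD k P hP x hx).2.2.2.2 hkn
    have hPh : ∀ x ∈ T, P x * h x = h x := fun x hx => by rw [hP1 x hx, Matrix.one_mul]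
    refine ⟨⟨hD.her.smooth, fun x hx => (hD.her.posDef x hx).isHermitian, fun x hx i j l => ?_⟩,
      fun x hx i j l m => ?_⟩
    · have h1 := hP.chf.closed x hx i j l
      have h2 : ∀ i j l, cd l (fun y => (P y * h y) i j) x = cd l (fun y => h y i j) x := by
        intro i j l
        have h3 : (fun y => (P y * h y) i j) =ᶠ[𝓝 x] fun y => h y i j := by
          filter_upwards [hTo.mem_nhds hx] with y hy
          rw [hPh y hy]
        unfold cd
        rw [h3.fderiv_eq]
      have h4 := h2 i j l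
      have h5 := h2 l j i
      rw [← h4, ← h5]
      exact h1
    · have h1 := hP.null x hx i j l m
      rw [hP1 x hx] at h1
      simpa [Matrix.one_apply] using h1

end Pool.Agent.Helper15.RBC
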