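import Pool.Agent.Helper15.RBC.GoalsE
import Pool.Agent.Helper16.HS.AAPS

/-! # RBC: the equality case in the positivity of the gradient term -/

open Complex Metric Set Filter Topology MeasureTheory
open scoped ContDiff ComplexConjugate ComplexOrder Manifold Matrix

namespace Pool.Agent.Helper15.RBC

open Pool.Agent.Helper16.HS

theorem aaz {n : ℕ} (Q Y : Matrix (Fin n) (Fin n) ℂ) (A : Fin n → Matrix (Fin n) (Fin n) ℂ)
    (hQ : Q.PosDef) (hY : Y.PosSemidef)
    (h0 : (∑ k, ∑ l, Q⁻¹ l k * Matrix.trace (A k * Y * (A l)ᴴ * Q⁻¹)).re = 0) :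
    ∀ k, A k * Y = 0 := by
  obtain ⟨S, hS⟩ : ∃ S : Matrix (Fin n) (Fin n) ℂ, Q⁻¹ = Sᴴ * S := by
    open scoped MatrixOrder in
    exact CStarAlgebra.nonneg_iff_eq_star_mul_self.mp hQ.inv.posSemidef.nonneg
  obtain ⟨B, hB⟩ : ∃ B : Matrix (Fin n) (Fin n) ℂ, Y = Bᴴ * B := by
    open scoped MatrixOrder in
    exact CStarAlgebra.nonneg_iff_eq_star_mul_self.mp hY.nonneg
  have hSd : IsUnit S.det := by
    rw [isUnit_iff_ne_zero]
    intro h1
    have h2 := hQ.inv.det_pos.ne'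
    rw [hS, Matrix.det_mul, h1, mul_zero] at h2
    exact h2 rfl
  set Z : Fin n → Matrix (Fin n) (Fin n) ℂ := fun a => ∑ k, S a k • A k with hZ
  set V : Fin n → Matrix (Fin n) (Fin n) ℂ := fun a => S * Z a * Bᴴ with hV
  have e1 : ∑ k, ∑ l, Q⁻¹ l k * Matrix.trace (A k * Y * (A l)ᴴ * Q⁻¹) =
      ∑ a, Matrix.trace (V a * (V a)ᴴ) := by
    have h1 : ∀ a, Matrix.trace (V a * (V a)ᴴ) = Matrix.trace (Z a * Y * (Z a)ᴴ * Q⁻¹) := by
      intro a
      have : V a * (V a)ᴴ = S * (Z a * Y * (Z a)ᴴ * Sᴴ) := by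
        simp only [hV, hB, Matrix.conjTranspose_mul, Matrix.conjTranspose_conjTranspose,
          Matrix.mul_assoc]
      rw [this, Matrix.trace_mul_comm, hS]
      simp only [Matrix.mul_assoc]
    have h2 : ∀ a, Matrix.trace (Z a * Y * (Z a)ᴴ * Q⁻¹) =
        ∑ k, ∑ l, S a k * (conj (S a l) * Matrix.trace (A k * Y * (A l)ᴴ * Q⁻¹)) := by
      intro a
      simp only [hZ, Matrix.conjTranspose_sum, Matrix.conjTranspose_smul, Matrix.sum_mul,
        Matrix.smul_mul, Matrix.mul_smul, Matrix.trace_sum, Matrix.trace_smul,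
        smul_eq_mul, Finset.mul_sum]
      rw [Finset.sum_comm]
      refine Finset.sum_congr rfl fun k _ => Finset.sum_congr rfl fun l _ => ?_
      change conj (S a l) * (S a k * _) = _
      ring
    simp only [h1, h2]
    conv_lhs => rw [hS]
    rw [sum_split]
    simp only [hS]
  have e2 : ∑ a, Matrix.trace (V a * (V a)ᴴ) =
      ((∑ a, ∑ p : Fin n × Fin n, ‖V a p.1 p.2‖ ^ 2 : ℝ) : ℂ) := by
    rw [Complex.ofReal_sum]
    exact Finset.sum_congr rfl fun a _ => frob1 _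
  rw [e1, e2, Complex.ofReal_re] at h0
  have hV0 : ∀ a, V a = 0 := by
    intro a
    have h1 := (Finset.sum_eq_zero_iff_of_nonneg fun a _ =>
      Finset.sum_nonneg fun p _ => sq_nonneg _).1 h0 a (Finset.mem_univ a)
    have h2 := (Finset.sum_eq_zero_iff_of_nonneg fun p _ => sq_nonneg _).1 h1
    ext i j
    have h3 := h2 (i, j) (Finset.mem_univ _)
    rw [Matrix.zero_apply]
    exact norm_eq_zero.1 (pow_eq_zero_iff two_ne_zero |>.1 h3)
  have hZB : ∀ a, Z a * Bᴴ = 0 := by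
    intro a
    have h1 : S⁻¹ * (S * Z a * Bᴴ) = 0 := by
      have h2 : S * Z a * Bᴴ = 0 := hV0 a
      rw [h2, Matrix.mul_zero]
    rw [Matrix.mul_assoc, ← Matrix.mul_assoc, Matrix.nonsing_inv_mul S hSd, Matrix.one_mul] at h1
    exact h1
  intro k
  have hk : A k * Bᴴ = ∑ a, S⁻¹ k a • (Z a * Bᴴ) := by
    have h1 : A k = ∑ a, S⁻¹ k a • Z a := by
      simp only [hZ, Finset.smul_sum, smul_smul]
      rw [Finset.sum_comm]
      have h2 : ∀ m, ∑ a, (S⁻¹ k a * S a m) • A m = (1 : Matrix (Fin n) (Fin n) ℂ) k m • A m := by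
        intro m
        rw [← Finset.sum_smul, ← Matrix.mul_apply, Matrix.nonsing_inv_mul S hSd]
      simp only [h2]
      simp [Matrix.one_apply]
    rw [h1, Matrix.sum_mul]
    simp only [Matrix.smul_mul]
  rw [hB, ← Matrix.mul_assoc, hk]
  simp only [hZB, smul_zero, Finset.sum_const_zero, Matrix.zero_mul]

end Pool.Agent.Helper15.RBC
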