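import Pool.Agent.Helper57.RBC.Defs

/-!
# RBC, goals E: from the projector to a canonical metric with semipositive curvature of constant corank

The goals of `Helper15/GS/GoalsE.lean` with `GDat` replaced by `RDat` of `Helper57/RBC/Defs.lean`: `H` is an
invariant Kähler metric, `h` an invariant Hermitian metric with nonpositive real bisectional curvature. `ParG`
and `BKE` are the definitions of GS. The form `rho h` need not be semipositive.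
-/

open Complex Metric Set Filter Topology MeasureTheory
open scoped ContDiff ComplexConjugate ComplexOrder Manifold Matrix

namespace Pool.Agent.Helper15.RBC

open Pool.Agent.Helper95.Lin Pool.Agent.Helper16.Abund Pool.Agent.Helper92.Orb
  Pool.Agent.Helper10.SP Pool.Agent.Helper95.RK Pool.Agent.Helper57.HS
  Pool.Agent.Helper15.HS Pool.Agent.Helper15.GS Pool.Agent.Helper57.RBC

universe u v

/-- RCLO. The form `P h` is closed (as GCLO). -/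
def S_RCLO : Prop := ∀ {n : ℕ} (T : Set (Cn n)) {G : Type u} [Group G]
  (R : G → Cn n → Cn n → Prop) (H h : Cn n → Matrix (Fin n) (Fin n) ℂ), RDat T R H h →
  ∀ P : Cn n → Matrix (Fin n) (Fin n) ℂ, (∀ i j, DifferentiableOn ℂ (fun x => P x i j) T) →
  (∀ x ∈ T, P x * P x = P x) → (∀ x ∈ T, P x * h x = h x * (P x)ᴴ) →
  (InvH R fun x => P x * h x) → (∀ x ∈ T, ∀ i j l m, ∑ p, P x i p * crv h x p j l m = 0) →
  CHF (fun x => P x * h x) T

/-- RPF. Facts on `P` (as GPF, without `rho h ≥ 0`). -/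
def S_RPF : Prop := ∀ {n : ℕ} (T : Set (Cn n)) {G : Type u} [Group G]
  (R : G → Cn n → Cn n → Prop) (H h : Cn n → Matrix (Fin n) (Fin n) ℂ), RDat T R H h →
  ∀ (k : ℕ) (P : Cn n → Matrix (Fin n) (Fin n) ℂ), ParG k T R h P → ∀ x ∈ T,
  (P x * h x).PosSemidef ∧
  (∀ l, cdM l (fun y => P y * h y) x = Gam h l x * (P x * h x)) ∧
  (∀ l m, cdbM m (Gam h l) x * (P x * h x) = 0) ∧
  (∀ t : ℂ, rho h x + (1 + t) • (P x * h x) = (1 + t • P x) * (rho h x + P x * h x) ∧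
    (1 + t • P x).det = (1 + t) ^ k) ∧ (k = n → P x = 1)

/-- RVB. Volumes (as GVB (1), (2)). -/
def S_RVB : Prop := ∀ {n : ℕ} (T : Set (Cn n)) {G : Type u} [Group G]
  (R : G → Cn n → Cn n → Prop) (H h : Cn n → Matrix (Fin n) (Fin n) ℂ), RDat T R H h →
  ∀ (k : ℕ) (P : Cn n → Matrix (Fin n) (Fin n) ℂ), ParG k T R h P → ∀ κ, IsPUE T R κ →
  (∀ (δ : ℝ) (Q : Cn n → Matrix (Fin n) (Fin n) ℂ), BKE T R H (fun x => P x * h x) δ Q →
    ∀ t : ℝ, ∫ x in T, κ x * (Q x + (t : ℂ) • H x).det.re =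
      ∫ x in T, κ x * (rho h x + P x * h x + ((δ + t : ℝ) : ℂ) • H x).det.re) ∧
  ∀ Q : Cn n → Matrix (Fin n) (Fin n) ℂ, BKE T R H (fun x => P x * h x) 0 Q → ∀ t : ℝ,
    ∫ x in T, κ x * (Q x + (t : ℂ) • (P x * h x)).det.re =
      (1 + t) ^ k * ∫ x in T, κ x * (Q x).det.re

/-- RB1. Existence for `δ > 0` (as GB1). -/
def S_RB1 : Prop := ∀ {n : ℕ} (T : Set (Cn n)) {G : Type u} [Group G]
  (R : G → Cn n → Cn n → Prop) (H h : Cn n → Matrix (Fin n) (Fin n) ℂ), RDat T R H h →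
  ∀ (k : ℕ) (P : Cn n → Matrix (Fin n) (Fin n) ℂ), ParG k T R h P → ∀ δ : ℝ, 0 < δ →
  ∃ Q, BKE T R H (fun x => P x * h x) δ Q

/-- RV0. Bounds for the volumes. `f(s) := ∫ κ det (rho h + P h + s H)` is a polynomial in `s`, `f(0) > 0` (`ParG.vol`)
and `f(s) > 0` for `s > 0`, because it is the volume of the metric of RB1 for `δ = s`. -/
def S_RV0 : Prop := ∀ {n : ℕ} (T : Set (Cn n)) {G : Type u} [Group G]
  (R : G → Cn n → Cn n → Prop) (H h : Cn n → Matrix (Fin n) (Fin n) ℂ), RDat T R H h →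
  ∀ (k : ℕ) (P : Cn n → Matrix (Fin n) (Fin n) ℂ), ParG k T R h P → ∀ κ, IsPUE T R κ →
  ∃ V0 V1 : ℝ, 0 < V0 ∧ ∀ s : ℝ, 0 ≤ s → s ≤ 2 →
    V0 ≤ ∫ x in T, κ x * (rho h x + P x * h x + (s : ℂ) • H x).det.re ∧
    ∫ x in T, κ x * (rho h x + P x * h x + (s : ℂ) • H x).det.re ≤ V1

/-- RAV. The average of the trace is bounded (as GAV). -/
def S_RAV : Prop := ∀ {n : ℕ} (T : Set (Cn n)) {G : Type u} [Group G]
  (R : G → Cn n → Cn n → Prop) (H h : Cn n → Matrix (Fin n) (Fin n) ℂ), RDat T R H h →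
  ∀ (k : ℕ) (P : Cn n → Matrix (Fin n) (Fin n) ℂ), ParG k T R h P → ∀ κ, IsPUE T R κ →
  ∃ C : ℝ, 0 ≤ C ∧ ∀ (δ : ℝ) (Q : Cn n → Matrix (Fin n) (Fin n) ℂ), 0 < δ → δ ≤ 1 →
    BKE T R H (fun x => P x * h x) δ Q →
    ∫ x in T, κ x * (Q x).det.re * (Matrix.trace (h x * (Q x)⁻¹)).re ≤
      C * Pool.Agent.Helper95.HS.vol T κ Q

/-- RB3. For some `δ > 0` also `Q - δ H` is a metric (as GB3). -/
def S_RB3 : Prop := ∀ {n : ℕ}, 0 < n → ∀ (T : Set (Cn n)) {G : Type u} [Group G]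
  (R : G → Cn n → Cn n → Prop) (H h : Cn n → Matrix (Fin n) (Fin n) ℂ), RDat T R H h →
  ∀ (k : ℕ) (P : Cn n → Matrix (Fin n) (Fin n) ℂ), ParG k T R h P →
  ∃ (δ : ℝ) (Q : Cn n → Matrix (Fin n) (Fin n) ℂ), 0 < δ ∧ BKE T R H (fun x => P x * h x) δ Q ∧
    ∀ x ∈ T, (Q x - (δ : ℂ) • H x).PosDef

/-- RB4. Existence for `δ = 0` (as GB4). -/
def S_RB4 : Prop := ∀ {n : ℕ}, 0 < n → ∀ (T : Set (Cn n)) {G : Type u} [Group G]
  (R : G → Cn n → Cn n → Prop) (H h : Cn n → Matrix (Fin n) (Fin n) ℂ), RDat T R H h →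
  ∀ (k : ℕ) (P : Cn n → Matrix (Fin n) (Fin n) ℂ), ParG k T R h P →
  ∃ Q : Cn n → Matrix (Fin n) (Fin n) ℂ, BKE T R H (fun x => P x * h x) 0 Q

/-- RB5. The form `β Q⁻¹` is a projector (as GB5), and the gradient term vanishes: `A_k β = 0`. -/
def S_RB5 : Prop := ∀ {n : ℕ} (T : Set (Cn n)) {G : Type u} [Group G]
  (R : G → Cn n → Cn n → Prop) (H h : Cn n → Matrix (Fin n) (Fin n) ℂ), RDat T R H h →
  ∀ (k : ℕ) (P : Cn n → Matrix (Fin n) (Fin n) ℂ), ParG k T R h P →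
  ∀ Q : Cn n → Matrix (Fin n) (Fin n) ℂ, BKE T R H (fun x => P x * h x) 0 Q → ∀ x ∈ T,
  (Matrix.trace (P x * h x * (Q x)⁻¹ * (P x * h x) * (Q x)⁻¹)).re -
    2 * (Matrix.trace (P x * h x * (Q x)⁻¹)).re + k = 0 ∧
  ∀ l, Adf h Q l x * (P x * h x) = 0

/-- RNUL. The curvature of the Kähler metric `Q` vanishes as soon as one index is in the kernel of `Q - P h`.
USES: MCAL, CSY, RPF, RB5, RB4.
PROOF. `β := P h`. `RB5`: `Gam Q k β = Gam h k β = cdM k β`, `cdbM l β = β (Gam h l)ᴴ`. Apply `cdbM l`: `(cdbM l (Gam Q k)) β + Gam Q k β (Gam h l)ᴴ =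
(cdbM l (Gam h k)) β + Gam h k β (Gam h l)ᴴ`, so `(cdbM l (Gam Q k)) β = (cdbM l (Gam h k)) β = 0` (`RPF`). If `hermi (Q - β) e e = 0` then, as `Q - β` is positive
semidefinite (`GAL`), `(Q - β) ē = 0`, so `∑ j, crv Q i j k l ē_j = - ((cdbM l (Gam Q k)) Q ē) i = - ((cdbM l (Gam Q k)) β ē) i = 0`. The other indices by the symmetries of
the Kähler metric `Q` (`CSY`). -/
def S_RNUL : Prop := ∀ {n : ℕ} (T : Set (Cn n)) {G : Type u} [Group G]
  (R : G → Cn n → Cn n → Prop) (H h : Cn n → Matrix (Fin n) (Fin n) ℂ), RDat T R H h →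
  ∀ (k : ℕ) (P : Cn n → Matrix (Fin n) (Fin n) ℂ), ParG k T R h P →
  ∀ Q : Cn n → Matrix (Fin n) (Fin n) ℂ, BKE T R H (fun x => P x * h x) 0 Q → ∀ x ∈ T,
  ∀ e : Cn n, hermi (Q x - P x * h x) e e = 0 → ∀ i j k, ∑ l, crv Q x i j k l * conj (e l) = 0

/-- RPOST. The output of the part after the projector: a Kähler metric `Q` whose Ricci form has constant corank
`k < n` and whose curvature vanishes in the directions of the kernel, or `h` is Kähler and flat. -/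
def S_RPOSTE : Prop := ∀ {n : ℕ}, 0 < n → ∀ (T : Set (Cn n)) {G : Type u} [Group G]
  (R : G → Cn n → Cn n → Prop) (H h : Cn n → Matrix (Fin n) (Fin n) ℂ), RDat T R H h →
  ∀ (k : ℕ) (P : Cn n → Matrix (Fin n) (Fin n) ℂ), k ≤ n → ParG k T R h P →
  (k < n ∧ ∃ Q, KEt T R Q ∧ CorankK k (ld Q) T ∧ ∀ x ∈ T, ∀ e, lev (ld Q) x e = 0 →
    ∀ i j m, ∑ l, crv Q x i j m l * conj (e l) = 0) ∨
  (CHF h T ∧ ∀ x ∈ T, ∀ i j k l, crv h x i j k l = 0)

end Pool.Agent.Helper15.RBC
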