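import Pool.Agent.Helper15.RBC.RNUL
import Pool.Agent.Helper16.HS.SGN
import Pool.Agent.Helper25.HS.NULB
import Pool.Agent.Helper89.GS.GRBC
import Pool.Agent.Helper10.SP.WIRT

/-! # RBC: the limit direction is in the nullity of the curvature

`P` is a holomorphic `h`-orthogonal projector with `T(im P, ·) = 0` (`T` the torsion of the Chern connection of
`h`). Then the Chern curvature has the symmetries of a Kähler metric as soon as one index is in the image of
`P`, and splits; if the real bisectional curvature is nonpositive and vanishes for a form with image `im P`, the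
curvature vanishes as soon as one index is in the image of `P`. -/

open Complex Metric Set Filter Topology MeasureTheory
open scoped ContDiff ComplexConjugate ComplexOrder Manifold Matrix

namespace Pool.Agent.Helper15.RBC

open Pool.Agent.Helper95.Lin Pool.Agent.Helper16.Abund Pool.Agent.Helper92.Orb
  Pool.Agent.Helper10.SP Pool.Agent.Helper95.RK Pool.Agent.Helper57.HS
  Pool.Agent.Helper15.HS Pool.Agent.Helper15.GS Pool.Agent.Helper57.RBC
open Pool.Agent.Helper9.SP (cdb_congr)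
open Pool.Agent.Helper25.HS (TT TT_add1 TT_smul1 TT_smul2 TT_smul3 TT_smul4 TT_conj polar psd_small)

universe u

variable {n : ℕ}

/-- NULR. The limit direction is in the nullity. -/
def S_NULR : Prop := ∀ {n : ℕ} (W : Set (Cn n)), IsOpen W →
  ∀ h P A : Cn n → Matrix (Fin n) (Fin n) ℂ, (∀ x ∈ W, (h x).PosDef) →
  (∀ i j, ContDiffOn ℝ ∞ (fun x => h x i j) W) → RBC h W →
  (∀ i j, DifferentiableOn ℂ (fun x => P x i j) W) → (∀ x ∈ W, P x * P x = P x) →
  (∀ x ∈ W, P x * h x = h x * (P x)ᴴ) →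
  (∀ x ∈ W, ∀ m i p, ∑ k, P x m k * (Gam h k x i p - Gam h i x k p) = 0) →
  (∀ x ∈ W, A x * P x = A x) → (∀ x ∈ W, A x * h x = h x * (A x)ᴴ) →
  (∀ x ∈ W, ∃ c : ℝ, 0 < c ∧ (A x * h x - (c : ℂ) • (P x * h x)).PosSemidef) →
  (∀ x ∈ W, (crvP h ((h x)⁻¹ * A x) ((h x)⁻¹ * A x) x).re = 0) → ∀ x ∈ W,
  (∀ i j l m, ∑ p, P x i p * crv h x p j l m = 0) ∧
  (∀ i j l m, ∑ p, P x l p * crv h x i j p m = 0) ∧ P x * rho h x = 0

/-! ## Algebra of the form `TT` -/

theorem TT_P1 (R : Fin n → Fin n → Fin n → Fin n → ℂ) (P : Matrix (Fin n) (Fin n) ℂ)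
    (a b c d : Fin n → ℂ) : TT R (a ᵥ* P) b c d =
      TT (fun i j k l => ∑ p, P i p * R p j k l) a b c d := by
  unfold TT
  simp only [Matrix.vecMul, dotProduct, Finset.sum_mul, Finset.mul_sum]
  rw [show (∑ p, ∑ j, ∑ k, ∑ l, ∑ i, R p j k l * (a i * P i p) * conj (b j) * c k *
    conj (d l)) = ∑ p, ∑ i, ∑ j, ∑ k, ∑ l, R p j k l * (a i * P i p) * conj (b j) * c k *
    conj (d l) from ?_]
  · rw [Finset.sum_comm]
    refine Finset.sum_congr rfl fun i _ => ?_
    rw [Finset.sum_comm]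
    refine Finset.sum_congr rfl fun j _ => ?_
    rw [Finset.sum_comm]
    refine Finset.sum_congr rfl fun k _ => ?_
    rw [Finset.sum_comm]
    refine Finset.sum_congr rfl fun l _ => Finset.sum_congr rfl fun p _ => ?_
    ring
  · refine Finset.sum_congr rfl fun p _ => ?_
    rw [Finset.sum_comm]
    rw [Finset.sum_comm]
    symm
    rw [Finset.sum_comm]
    refine Finset.sum_congr rfl fun j _ => ?_
    rw [Finset.sum_comm]
    refine Finset.sum_congr rfl fun k _ => ?_
    rw [Finset.sum_comm]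

theorem TT_P2 (R : Fin n → Fin n → Fin n → Fin n → ℂ) (P : Matrix (Fin n) (Fin n) ℂ)
    (a b c d : Fin n → ℂ) : TT R a (b ᵥ* P) c d =
      TT (fun i j k l => ∑ q, R i q k l * conj (P j q)) a b c d := by
  unfold TT
  refine Finset.sum_congr rfl fun i _ => ?_
  simp only [Matrix.vecMul, dotProduct, map_sum, map_mul, Finset.sum_mul, Finset.mul_sum]
  rw [show (∑ q, ∑ k, ∑ l, ∑ j, R i q k l * a i * (conj (b j) * conj (P j q)) * c k *
    conj (d l)) = ∑ q, ∑ j, ∑ k, ∑ l, R i q k l * a i * (conj (b j) * conj (P j q)) *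
    c k * conj (d l) from ?_]
  · rw [Finset.sum_comm]
    refine Finset.sum_congr rfl fun j _ => ?_
    rw [Finset.sum_comm]
    refine Finset.sum_congr rfl fun k _ => ?_
    rw [Finset.sum_comm]
    refine Finset.sum_congr rfl fun l _ => Finset.sum_congr rfl fun q _ => ?_
    ring
  · refine Finset.sum_congr rfl fun q _ => ?_
    symm
    rw [Finset.sum_comm]
    refine Finset.sum_congr rfl fun k _ => ?_
    rw [Finset.sum_comm]

theorem TT_single (R : Fin n → Fin n → Fin n → Fin n → ℂ) (i j k l : Fin n) :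
    TT R (Pi.single i 1) (Pi.single j 1) (Pi.single k 1) (Pi.single l 1) = R i j k l := by
  unfold TT
  rw [Finset.sum_eq_single i, Finset.sum_eq_single j, Finset.sum_eq_single k,
    Finset.sum_eq_single l]
  · simp
  · intro b _ hb
    simp [Pi.single_apply, hb]
  · simp
  · intro b _ hb
    simp [Pi.single_apply, hb]
  · simp
  · intro b _ hb
    simp [Pi.single_apply, hb]
  · simp
  · intro b _ hb
    simp [Pi.single_apply, hb]
  · simp

/-- Swap of the first and the third index. -/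
theorem TT_swap (R : Fin n → Fin n → Fin n → Fin n → ℂ) (a b c d : Fin n → ℂ) :
    TT (fun i j k l => R k j i l) a b c d = TT R c b a d := by
  unfold TT
  have h1 := Pool.Agent.Helper93.GS.swap13
    (fun i j k l => R k j i l * a i * conj (b j) * c k * conj (d l))
  rw [h1]
  refine Finset.sum_congr rfl fun i _ => Finset.sum_congr rfl fun j _ =>
    Finset.sum_congr rfl fun k _ => Finset.sum_congr rfl fun l _ => ?_
  ring

theorem TT_cj (R : Fin n → Fin n → Fin n → Fin n → ℂ)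
    (h2 : ∀ i j k l, conj (R i j k l) = R j i l k) (a b c d : Fin n → ℂ) :
    conj (TT R a b c d) = TT R b a d c := by
  unfold TT
  simp only [map_sum, map_mul, Complex.conj_conj, h2]
  rw [Finset.sum_comm]
  refine Finset.sum_congr rfl fun j _ => Finset.sum_congr rfl fun i _ => ?_
  rw [Finset.sum_comm]
  refine Finset.sum_congr rfl fun l _ => Finset.sum_congr rfl fun k _ => ?_
  ring

/-- The splitting: from `P₁ = P₂` and the symmetry in the first and the third index for one vector in the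
image of `P`. -/
theorem TT_split {R : Fin n → Fin n → Fin n → Fin n → ℂ} {P : Matrix (Fin n) (Fin n) ℂ}
    (hPP : P * P = P) (h2 : ∀ i j k l, conj (R i j k l) = R j i l k)
    (hex : ∀ a b c d : Fin n → ℂ, TT R (a ᵥ* P) b c d = TT R a (b ᵥ* P) c d)
    (ht : ∀ a b c d : Fin n → ℂ, TT R (a ᵥ* P) b c d = TT R c b (a ᵥ* P) d) :
    (∀ a b c d : Fin n → ℂ, TT R (a ᵥ* P) b c d = TT R (a ᵥ* P) (b ᵥ* P) c d) ∧
    (∀ a b c d : Fin n → ℂ, TT R (a ᵥ* P) b c d = TT R (a ᵥ* P) b (c ᵥ* P) d) ∧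
    (∀ a b c d : Fin n → ℂ, TT R (a ᵥ* P) b c d = TT R (a ᵥ* P) b c (d ᵥ* P)) ∧
    ∀ a b c d : Fin n → ℂ, TT R a (b ᵥ* P) c d = TT R a d c (b ᵥ* P) := by
  have hpp : ∀ a : Fin n → ℂ, (a ᵥ* P) ᵥ* P = a ᵥ* P := fun a => by
    rw [Matrix.vecMul_vecMul, hPP]
  have f1 : ∀ a b c d : Fin n → ℂ, TT R (a ᵥ* P) b c d = TT R (a ᵥ* P) (b ᵥ* P) c d := by
    intro a b c d
    rw [← hpp a, hex (a ᵥ* P) b c d, hpp a]
  have f2 : ∀ a b c d : Fin n → ℂ, TT R (a ᵥ* P) b c d = TT R (a ᵥ* P) b (c ᵥ* P) d := by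
    intro a b c d
    rw [f1 a b c d, ht a (b ᵥ* P) c d, ← hex c b (a ᵥ* P) d, ← ht a b (c ᵥ* P) d]
  have t2 : ∀ a b c d : Fin n → ℂ, TT R a (b ᵥ* P) c d = TT R a d c (b ᵥ* P) := by
    intro a b c d
    have h1 := congrArg conj (ht b a d c)
    rw [TT_cj R h2, TT_cj R h2] at h1
    exact h1
  refine ⟨f1, f2, fun a b c d => ?_, t2⟩
  rw [f1 a b c d, t2 (a ᵥ* P) b c d, f1 a d c (b ᵥ* P), t2 (a ᵥ* P) d c (b ᵥ* P)]
  exact (f1 a b c (d ᵥ* P)).symm

/-! ## The symmetry from the torsion -/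

theorem cdb_holo (hW : S_WIRT) {W : Set (Cn n)} (hWo : IsOpen W) {f : Cn n → ℂ}
    (hf : DifferentiableOn ℂ f W) {x : Cn n} (hx : x ∈ W) (l : Fin n) : cdb l f x = 0 := by
  have hs : ContDiffOn ℝ ∞ f W := holo_contDiffOn_real hWo hf
  exact ((hW W hWo f f hs hs).2.2.2.2.2).2 hf l x hx

theorem cdb_sum {ι : Type*} (s : Finset ι) {f : ι → Cn n → ℂ} {x : Cn n}
    (hf : ∀ i ∈ s, DifferentiableAt ℝ (f i) x) (l : Fin n) :
    cdb l (fun y => ∑ i ∈ s, f i y) x = ∑ i ∈ s, cdb l (f i) x := by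
  unfold cdb
  rw [fderiv_fun_sum hf]
  simp only [ContinuousLinearMap.sum_apply, Finset.mul_sum, ← Finset.sum_add_distrib]

/-- Differentiation of the torsion identity. -/
theorem tor_crv (hW : S_WIRT) (hM : S_MCAL) (hC : S_CSY) {W : Set (Cn n)} (hWo : IsOpen W)
    {h P : Cn n → Matrix (Fin n) (Fin n) ℂ} (hp : ∀ x ∈ W, (h x).PosDef)
    (hs : ∀ i j, ContDiffOn ℝ ∞ (fun x => h x i j) W)
    (hP : ∀ i j, DifferentiableOn ℂ (fun x => P x i j) W)
    (ht : ∀ x ∈ W, ∀ m i p, ∑ k, P x m k * (Gam h k x i p - Gam h i x k p) = 0)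
    {x : Cn n} (hx : x ∈ W) (m i j l : Fin n) :
    ∑ k, P x m k * (crv h x i j k l - crv h x k j i l) = 0 := by
  obtain ⟨c1, -, -⟩ := hC W hWo h hp hs x hx
  have gs : ∀ k i j, ContDiffOn ℝ ∞ (fun x => Gam h k x i j) W := fun k i j =>
    gam_smooth hM hWo hs hp k i j
  have key : ∀ p, ∑ k, P x m k * (cdbM l (Gam h k) x i p - cdbM l (Gam h i) x k p) = 0 := by
    intro p
    have e0 : cdb l (fun y => ∑ k, P y m k * (Gam h k y i p - Gam h i y k p)) x = 0 := by
      rw [cdb_congr (g := fun _ => 0) ?_ l, Pool.Agent.Helper9.SP.cdb_zero]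
      filter_upwards [hWo.mem_nhds hx] with y hy
      exact ht y hy m i p
    have dP : ∀ k, DifferentiableAt ℝ (fun y => P y m k) x := fun k =>
      ((hP m k).differentiableAt (hWo.mem_nhds hx)).restrictScalars ℝ
    have dG : ∀ k i j, DifferentiableAt ℝ (fun y => Gam h k y i j) x := fun k i j =>
      Pool.Agent.Helper10.SP.Wirt.dAt hWo (gs k i j) hx
    rw [cdb_sum _ (fun k _ => (dP k).fun_mul ((dG k i p).fun_sub (dG i k p))) l] at e0
    rw [← e0]
    refine Finset.sum_congr rfl fun k _ => ?_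
    have s1 : ContDiffOn ℝ ∞ (fun y => P y m k) W :=
      holo_contDiffOn_real hWo (hP m k)
    have s2 : ContDiffOn ℝ ∞ (fun y => Gam h k y i p - Gam h i y k p) W := (gs k i p).sub (gs i k p)
    rw [((hW W hWo _ _ s1 s2).2.2.1 l x hx).2, cdb_holo hW hWo (hP m k) hx l, mul_zero, add_zero,
      Pool.Agent.Helper9.SP.cdb_sub (dG k i p) (dG i k p)]
    rfl
  have e1 : ∀ k, P x m k * (crv h x i j k l - crv h x k j i l) =
      - ∑ p, (P x m k * (cdbM l (Gam h k) x i p - cdbM l (Gam h i) x k p)) * h x p j := by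
    intro k
    rw [c1 i j k l, c1 k j i l, Matrix.mul_apply, Matrix.mul_apply, neg_sub_neg,
      ← Finset.sum_sub_distrib, Finset.mul_sum, ← Finset.sum_neg_distrib]
    refine Finset.sum_congr rfl fun p _ => ?_
    ring
  rw [Finset.sum_congr rfl fun k _ => e1 k, Finset.sum_neg_distrib, Finset.sum_comm]
  have e2 : ∀ p, ∑ k, (P x m k * (cdbM l (Gam h k) x i p - cdbM l (Gam h i) x k p)) * h x p j =
      0 := by
    intro p
    rw [← Finset.sum_mul, key p, zero_mul]
  simp only [e2, Finset.sum_const_zero, neg_zero]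

/-! ## The theorem -/

/-- NULR. -/
theorem nulr (hWI : S_WIRT) (hM : S_MCAL) (hC : S_CSY) (hPAR : S_PARP) : S_NULR := by
  intro n W hW h P A hpos hs hRBC hP hPP hPH htor hAP hAH hAc hcr x hx
  obtain ⟨c1, c2, -⟩ := hC W hW h hpos hs x hx
  have hhx := hpos x hx
  have hhu : IsUnit (h x).det := isUnit_iff_ne_zero.2 hhx.det_pos.ne'
  have hG : ((h x)⁻¹).PosDef := hhx.inv
  have htc := fun m i j l => tor_crv hWI hM hC hW hpos hs hP htor hx m i j l
  set R : Fin n → Fin n → Fin n → Fin n → ℂ := crv h x with hR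
  -- exchange of the projector
  have hex0 : ∀ i j l m, ∑ p, P x i p * R p j l m = ∑ q, R i q l m * conj (P x j q) := by
    intro i j l m
    have e1 := (hPAR W hW h P hpos hs hP hPH x hx l).2.2 m
    have e2 : ∀ p q, R p q l m = - (cdbM m (Gam h l) x * h x) p q := fun p q => c1 p q l m
    have e3 : P x * (cdbM m (Gam h l) x * h x) = (cdbM m (Gam h l) x * h x) * (P x)ᴴ := by
      rw [← Matrix.mul_assoc, ← e1, Matrix.mul_assoc, hPH x hx, Matrix.mul_assoc]
    have e4 := congrFun (congrFun e3 i) j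
    rw [Matrix.mul_apply, Matrix.mul_apply] at e4
    simp only [e2, mul_neg, neg_mul, Finset.sum_neg_distrib]
    rw [e4]
    rfl
  have hex : ∀ a b c d : Fin n → ℂ, TT R (a ᵥ* P x) b c d = TT R a (b ᵥ* P x) c d := by
    intro a b c d
    rw [TT_P1, TT_P2]
    simp only [hex0]
  have ht : ∀ a b c d : Fin n → ℂ, TT R (a ᵥ* P x) b c d = TT R c b (a ᵥ* P x) d := by
    intro a b c d
    rw [← TT_swap R (a ᵥ* P x) b c d, TT_P1, TT_P1]
    congr 1
    funext i j k l
    have e1 := htc i k j l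
    simp only [mul_sub, Finset.sum_sub_distrib] at e1
    exact (sub_eq_zero.1 e1).symm
  obtain ⟨f1, f2, f3, t2⟩ := TT_split (hPP x hx) c2 hex ht
  have fall : ∀ a b c d : Fin n → ℂ, TT R (a ᵥ* P x) b c d =
      TT R (a ᵥ* P x) (b ᵥ* P x) (c ᵥ* P x) (d ᵥ* P x) := by
    intro a b c d
    rw [f1 a b c d, f2 a (b ᵥ* P x) c d, f3 a (b ᵥ* P x) (c ᵥ* P x) d]
  -- the restricted tensor
  set R' : Fin n → Fin n → Fin n → Fin n → ℂ := fun i j k l => ∑ p, P x i p * R p j k l with hR'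
  have hTT : ∀ a b c d : Fin n → ℂ, TT R' a b c d = TT R (a ᵥ* P x) b c d := by
    intro a b c d
    rw [TT_P1]
  have h13 : ∀ i j k l, R' i j k l = R' k j i l := by
    intro i j k l
    rw [← TT_single R' i j k l, ← TT_single R' k j i l, hTT, hTT, f2, ht, ← f2]
  have h24 : ∀ i j k l, R' i j k l = R' i l k j := by
    intro i j k l
    rw [← TT_single R' i j k l, ← TT_single R' i l k j, hTT, hTT, f1, t2, ← f3]
  have hrank : ∀ w : Fin n → ℂ, (TT R w w w w).re ≤ 0 := by
    intro w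
    have e1 := hRBC x hx _ (Matrix.posSemidef_vecMulVec_star_self w)
    refine le_trans (le_of_eq ?_) e1
    congr 1
    unfold TT crvP
    refine Finset.sum_congr rfl fun i _ => Finset.sum_congr rfl fun j _ =>
      Finset.sum_congr rfl fun k _ => Finset.sum_congr rfl fun l _ => ?_
    simp only [Matrix.vecMulVec_apply, Pi.star_apply, Complex.star_def, hR]
    ring
  have hneg : ∀ v, (Pool.Agent.Helper16.HS.SGNP.QF R' v v v v).re ≤ 0 := by
    intro v
    have e1 : Pool.Agent.Helper16.HS.SGNP.QF R' v v v v = TT R' v v v v := rfl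
    rw [e1, hTT, fall]
    exact hrank _
  -- the form `X = h⁻¹ A`
  set X : Matrix (Fin n) (Fin n) ℂ := (h x)⁻¹ * A x with hX
  have hXP : X * P x = X := by rw [hX, Matrix.mul_assoc, hAP x hx]
  have hpair : ∑ i, ∑ j, ∑ k, ∑ l, X j i * X l k * R' i j k l = crvP h X X x := by
    have e1 : ∀ j p, X j p = ∑ i, X j i * P x i p := by
      intro j p
      rw [← Matrix.mul_apply, hXP]
    have e2 : ∑ i, ∑ j, ∑ k, ∑ l, X j i * X l k * R' i j k l =
        ∑ i, ∑ j, ∑ k, ∑ l, ∑ p, X j i * P x i p * X l k * R p j k l := by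
      refine Finset.sum_congr rfl fun i _ => Finset.sum_congr rfl fun j _ =>
        Finset.sum_congr rfl fun k _ => Finset.sum_congr rfl fun l _ => ?_
      simp only [hR', Finset.mul_sum]
      refine Finset.sum_congr rfl fun p _ => ?_
      ring
    have e3 : crvP h X X x = ∑ p, ∑ j, ∑ k, ∑ l, ∑ i, X j i * P x i p * X l k * R p j k l := by
      unfold crvP
      refine Finset.sum_congr rfl fun p _ => Finset.sum_congr rfl fun j _ =>
        Finset.sum_congr rfl fun k _ => Finset.sum_congr rfl fun l _ => ?_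
      rw [← Finset.sum_mul, ← Finset.sum_mul, ← e1]
    rw [e2, e3]
    -- move the sum over `p` to the front and the sum over `i` to the end
    calc ∑ i, ∑ j, ∑ k, ∑ l, ∑ p, X j i * P x i p * X l k * R p j k l
        = ∑ i, ∑ j, ∑ k, ∑ p, ∑ l, X j i * P x i p * X l k * R p j k l := by
          refine Finset.sum_congr rfl fun i _ => Finset.sum_congr rfl fun j _ =>
            Finset.sum_congr rfl fun k _ => Finset.sum_comm
      _ = ∑ i, ∑ j, ∑ p, ∑ k, ∑ l, X j i * P x i p * X l k * R p j k l := by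
          refine Finset.sum_congr rfl fun i _ => Finset.sum_congr rfl fun j _ => Finset.sum_comm
      _ = ∑ i, ∑ p, ∑ j, ∑ k, ∑ l, X j i * P x i p * X l k * R p j k l := by
          refine Finset.sum_congr rfl fun i _ => Finset.sum_comm
      _ = ∑ p, ∑ i, ∑ j, ∑ k, ∑ l, X j i * P x i p * X l k * R p j k l := Finset.sum_comm
      _ = ∑ p, ∑ j, ∑ i, ∑ k, ∑ l, X j i * P x i p * X l k * R p j k l := by
          refine Finset.sum_congr rfl fun p _ => Finset.sum_comm
      _ = ∑ p, ∑ j, ∑ k, ∑ i, ∑ l, X j i * P x i p * X l k * R p j k l := by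
          refine Finset.sum_congr rfl fun p _ => Finset.sum_congr rfl fun j _ => Finset.sum_comm
      _ = ∑ p, ∑ j, ∑ k, ∑ l, ∑ i, X j i * P x i p * X l k * R p j k l := by
          refine Finset.sum_congr rfl fun p _ => Finset.sum_congr rfl fun j _ =>
            Finset.sum_congr rfl fun k _ => Finset.sum_comm
  -- the subspace
  let F : Submodule ℂ (Fin n → ℂ) :=
    { carrier := {f | f ᵥ* P x = f}
      add_mem' := fun {a b} ha hb => by
        show (a + b) ᵥ* P x = a + b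
        rw [Matrix.add_vecMul, ha, hb]
      zero_mem' := Matrix.zero_vecMul _
      smul_mem' := fun z a ha => by
        show (z • a) ᵥ* P x = z • a
        rw [Matrix.smul_vecMul, ha] }
  have hF : ∀ a : Fin n → ℂ, a ᵥ* P x ∈ F := fun a => by
    show (a ᵥ* P x) ᵥ* P x = a ᵥ* P x
    rw [Matrix.vecMul_vecMul, hPP x hx]
  -- `h⁻¹ P = Pᴴ h⁻¹ P`
  have hPi : (h x)⁻¹ * P x = (P x)ᴴ * (h x)⁻¹ := by
    have e2 : (h x)⁻¹ * (P x * h x) * (h x)⁻¹ = (h x)⁻¹ * (h x * (P x)ᴴ) * (h x)⁻¹ :=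
      congrArg (fun M => (h x)⁻¹ * M * (h x)⁻¹) (hPH x hx)
    rw [Matrix.mul_assoc, Matrix.mul_assoc, Matrix.mul_nonsing_inv _ hhu, Matrix.mul_one,
      ← Matrix.mul_assoc ((h x)⁻¹) (h x), Matrix.nonsing_inv_mul _ hhu, Matrix.one_mul] at e2
    exact e2
  have hK : (P x)ᴴ * (h x)⁻¹ * P x = (h x)⁻¹ * P x := by
    rw [← hPi, Matrix.mul_assoc, hPP x hx]
  obtain ⟨c, hc, hcpsd⟩ := hAc x hx
  -- `X - c h⁻¹ P ≥ 0`
  have hXc : (X - (c : ℂ) • ((h x)⁻¹ * P x)).PosSemidef := by
    have e1 := hcpsd.mul_mul_conjTranspose_same ((h x)⁻¹)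
    have e2 : (h x)⁻¹ * (A x * h x - (c : ℂ) • (P x * h x)) * ((h x)⁻¹)ᴴ =
        X - (c : ℂ) • ((h x)⁻¹ * P x) := by
      rw [hG.isHermitian.eq, Matrix.mul_sub, Matrix.sub_mul, Matrix.mul_smul, Matrix.smul_mul]
      congr 1
      · rw [← Matrix.mul_assoc, Matrix.mul_assoc, Matrix.mul_nonsing_inv _ hhu, Matrix.mul_one]
      · rw [← Matrix.mul_assoc ((h x)⁻¹) (P x), Matrix.mul_assoc, Matrix.mul_nonsing_inv _ hhu,
          Matrix.mul_one]
    rw [e2] at e1
    exact e1
  have hq : ∀ f ∈ F, TT R' f f f f = 0 := by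
    intro f hf
    have hfP : f ᵥ* P x = f := hf
    obtain ⟨d, hd, hpsd⟩ := psd_small hG f hfP
    rw [hK] at hpsd
    set e : ℝ := Real.sqrt c * d with he
    have hepos : 0 < e := mul_pos (Real.sqrt_pos.2 hc) hd
    have hP1 : (X - Matrix.vecMulVec (fun i => conj (((e : ℂ) • f) i)) ((e : ℂ) • f)).PosSemidef := by
      have hc' : (0 : ℂ) ≤ (c : ℂ) := by exact_mod_cast hc.le
      have e1 := hXc.add (hpsd.smul hc')
      have hsq : ((Real.sqrt c : ℝ) : ℂ) * ((Real.sqrt c : ℝ) : ℂ) = (c : ℂ) := by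
        rw [← Complex.ofReal_mul, Real.mul_self_sqrt hc.le]
      have e2 : X - (c : ℂ) • ((h x)⁻¹ * P x) + (c : ℂ) • ((h x)⁻¹ * P x -
          Matrix.vecMulVec (fun i => conj (((d : ℂ) • f) i)) ((d : ℂ) • f)) =
          X - Matrix.vecMulVec (fun i => conj (((e : ℂ) • f) i)) ((e : ℂ) • f) := by
        have e3 : (c : ℂ) • Matrix.vecMulVec (fun i => conj (((d : ℂ) • f) i)) ((d : ℂ) • f) =
            Matrix.vecMulVec (fun i => conj (((e : ℂ) • f) i)) ((e : ℂ) • f) := by
          ext i j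
          simp only [Matrix.smul_apply, Matrix.vecMulVec_apply, Pi.smul_apply, smul_eq_mul, map_mul,
            Complex.conj_ofReal, he, Complex.ofReal_mul]
          rw [← hsq]
          ring
        rw [smul_sub, e3]
        abel
      rw [e2] at e1
      exact e1
    have e1 := Pool.Agent.Helper16.HS.SGNP.main_le R' h13 h24 hneg X ((e : ℂ) • f) hP1
    rw [hpair, hcr x hx, mul_zero] at e1
    have e2 : 0 ≤ (TT R' ((e : ℂ) • f) ((e : ℂ) • f) ((e : ℂ) • f) ((e : ℂ) • f)).re := e1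
    rw [TT_smul1, TT_smul2, TT_smul3, TT_smul4, Complex.conj_ofReal] at e2
    have e3 : (e : ℂ) * ((e : ℂ) * ((e : ℂ) * ((e : ℂ) * TT R' f f f f))) =
        ((e ^ 4 : ℝ) : ℂ) * TT R' f f f f := by push_cast; ring
    rw [e3, Complex.re_ofReal_mul] at e2
    have e4 : (TT R' f f f f).re ≤ 0 := hneg f
    have e5 : 0 ≤ (TT R' f f f f).re := by
      have : 0 < e ^ 4 := by positivity
      exact nonneg_of_mul_nonneg_right e2 this
    have e6 : conj (TT R' f f f f) = TT R' f f f f := by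
      rw [hTT, hfP]
      exact TT_conj (R := R) c2 f
    have e7 : (TT R' f f f f).im = 0 := Complex.conj_eq_iff_im.1 e6
    exact Complex.ext (le_antisymm e4 e5) e7
  have hT := polar h13 h24 F hq
  have hz : ∀ a b c d : Fin n → ℂ, TT R (a ᵥ* P x) b c d = 0 := by
    intro a b c d
    rw [fall, ← hT _ (hF a) _ (hF b) _ (hF c) _ (hF d), hTT, Matrix.vecMul_vecMul, hPP x hx]
  have hn1 : ∀ i j l m, ∑ p, P x i p * R p j l m = 0 := by
    intro i j l m
    have e1 := hz (Pi.single i 1) (Pi.single j 1) (Pi.single l 1) (Pi.single m 1)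
    rw [← hTT, TT_single] at e1
    exact e1
  have hn3 : ∀ i j l m, ∑ p, P x l p * R i j p m = 0 := by
    intro i j l m
    have e1 := htc l i j m
    simp only [mul_sub, Finset.sum_sub_distrib] at e1
    rw [sub_eq_zero.1 e1]
    exact hn1 l j i m
  refine ⟨hn1, hn3, ?_⟩
  ext l m
  rw [Matrix.mul_apply, Matrix.zero_apply]
  have hr : ∀ k l, rho h x k l = - ∑ i, ∑ j, (h x)⁻¹ j i * R i j k l := fun k l =>
    Pool.Agent.Helper89.GS.rho_eq hWI hM hC hW hpos hs hx k l
  have e1 : ∑ p, P x l p * rho h x p m = - ∑ i, ∑ j, (h x)⁻¹ j i * ∑ p, P x l p * R i j p m := by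
    simp only [hr, mul_neg, Finset.sum_neg_distrib, Finset.mul_sum]
    congr 1
    rw [Finset.sum_comm]
    refine Finset.sum_congr rfl fun i _ => ?_
    rw [Finset.sum_comm]
    refine Finset.sum_congr rfl fun j _ => Finset.sum_congr rfl fun p _ => ?_
    ring
  rw [e1]
  simp only [hn3, mul_zero, Finset.sum_const_zero, neg_zero]

end Pool.Agent.Helper15.RBC
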