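import Pool.Agent.Helper15.RBC.GoalsE
import Pool.Agent.Helper61.GS.GB1

/-! # RBC: existence for positive `δ` (copy of GB1) -/

open Complex Metric Set Filter Topology MeasureTheory
open scoped ContDiff ComplexConjugate ComplexOrder Manifold Matrix

namespace Pool.Agent.Helper15.RBC

open Pool.Agent.Helper95.Lin Pool.Agent.Helper16.Abund Pool.Agent.Helper92.Orb
  Pool.Agent.Helper10.SP Pool.Agent.Helper95.RK Pool.Agent.Helper57.HS
  Pool.Agent.Helper15.HS Pool.Agent.Helper15.GS Pool.Agent.Helper57.RBC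
open Pool.Agent.Helper61.GS (ket_add LM_congr)

universe u

/-- RB1. -/
theorem rb1 (hAYG : S_AYG.{u}) (hGEX : S_REX.{u}) (hRHOI : S_RHOI.{u}) (hGPF : S_RPF.{u}) :
    S_RB1.{u} := by
  intro n T G _ R H h hD k P hP δ hδ
  obtain ⟨Q', hQ'⟩ := hGEX T R H h hD δ hδ
  have hT := hQ'.ket.et.isOpen
  have hβp : ∀ x ∈ T, (P x * h x).PosSemidef := fun x hx => (hGPF T R H h hD k P hP x hx).1
  have hX : KEt T R fun x => Q' x + P x * h x := ket_add hQ'.ket hP.chf hP.inv hβp
  have h0 : InvF T R fun _ => (0 : ℝ) := ⟨contDiffOn_const, fun _ _ _ _ => rfl⟩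
  obtain ⟨u, hu, hK, hdet⟩ := hAYG T R Q' (fun x => Q' x + P x * h x) hQ'.ket hX _ h0
  refine ⟨fun x => Q' x + P x * h x + LM u x, hK, fun x hx => ?_⟩
  have hher : ∀ {Q : Cn n → Matrix (Fin n) (Fin n) ℂ}, KEt T R Q → HerT T R Q := fun hQ =>
    ⟨hQ.posDef, hQ.smooth, hQ.inv⟩
  obtain ⟨-, -, -, -, r5⟩ := hRHOI T R Q' hQ'.ket.et (hher hQ'.ket)
  obtain ⟨-, r6⟩ := r5 _ (hher hK)
  have h1 : LM (fun y => ld (fun x => Q' x + P x * h x + LM u x) y - ld Q' y) x = LM u x := by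
    refine LM_congr ?_
    filter_upwards [hT.mem_nhds hx] with y hy
    have hpos : 0 < (Q' y).det.re := by
      have := (hQ'.ket.posDef y hy).det_pos
      exact (Complex.pos_iff.1 this).1
    unfold ld
    rw [hdet y hy, add_zero, Real.log_mul (Real.exp_ne_zero _) hpos.ne', Real.log_exp]
    ring
  rw [r6 x hx, h1, hQ'.eq x hx]
  show Q' x - (δ : ℂ) • H x + LM u x =
    Q' x + P x * h x + LM u x - P x * h x - (δ : ℂ) • H x
  generalize P x * h x = B
  abel

end Pool.Agent.Helper15.RBC
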