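import Pool.Agent.Helper15.RBC.GoalsE
import Pool.Agent.Helper88.GS.GB3

/-! # RBC: for some `δ > 0` also `Q - δ H` is a metric (copy of GB3) -/

open Complex Metric Set Filter Topology MeasureTheory
open scoped ContDiff ComplexConjugate ComplexOrder Manifold Matrix

namespace Pool.Agent.Helper15.RBC

open Pool.Agent.Helper95.Lin Pool.Agent.Helper16.Abund Pool.Agent.Helper92.Orb
  Pool.Agent.Helper10.SP Pool.Agent.Helper95.RK Pool.Agent.Helper57.HS
  Pool.Agent.Helper15.HS Pool.Agent.Helper15.GS Pool.Agent.Helper57.RBC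
open Pool.Agent.Helper88.GS (smul_psd smul_pd le_tr_smul hermi_add)

variable {n : ℕ}

universe u

theorem rb3 (hSBG : Pool.Agent.Helper95.HS.S_SBG.{u}) (hDENS : Pool.Agent.Helper95.HS.S_DENS.{u})
    (hPUE : S_PUE.{u}) (hNULL0 : Pool.Agent.Helper95.HS.S_NULL0.{u})
    (hCMPG : S_CMPG.{u}) (hGPF : S_RPF.{u}) (hGB1 : S_RB1.{u})
    (hGLG : S_GLG.{u}) (hGAV : S_RAV.{u}) (hRHB : S_RHB.{u}) (hRHOI : S_RHOI.{u}) :
    S_RB3.{u} := by
  intro n hn T G _ R H h D k P hP
  have hE := D.ket.et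
  obtain ⟨κ, hκ⟩ := hPUE T R hE
  obtain ⟨c, C, hc, hC, hcmp⟩ := hCMPG T R H h D.ket D.her
  have hHer : HerT T R H := ⟨D.ket.posDef, D.ket.smooth, D.ket.inv⟩
  have hrbc : RBC h T := D.rbc
  have hgpf := hGPF T R H h D k P hP
  obtain ⟨hrho1, hrho2, -, -, hrho5⟩ := hRHOI T R H hE hHer
  set β : Cn n → Matrix (Fin n) (Fin n) ℂ := fun x => P x * h x with hβ
  have hβpsd : ∀ x ∈ T, (β x).PosSemidef := fun x hx => (hgpf x hx).1
  have hβh : ∀ x ∈ T, (β x).IsHermitian := fun x hx => (hβpsd x hx).isHermitian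
  -- the bound of the fixed forms
  obtain ⟨K0, hK0, hK0b⟩ := hRHB T R H hE hHer (fun x => rho H x + β x)
    (fun x hx => (hrho1.herm x hx).add (hβh x hx))
    (fun i j => ((hrho1.smooth i j).continuousOn).add ((hP.chf.smooth i j).continuousOn))
    (by
      intro U τ hτ x hx a b
      rw [hermi_add, hermi_add, hrho2 U τ hτ x hx a b, hP.inv U τ hτ x hx a b])
  set a : ℝ := K0 + 1 with ha
  obtain ⟨K, hK, hDb⟩ := hDENS T R H D.ket κ hκ a
  obtain ⟨C', hSb⟩ := hSBG hn T R H D.ket κ hκ a K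
  obtain ⟨C2, hC2, hAv⟩ := hGAV T R H h D k P hP κ hκ
  set B : ℝ := |C'| * C2 + 1 with hB
  have hBpos : 0 < B := by positivity
  -- uniform bound
  have key : ∀ (δ : ℝ) (Q : Cn n → Matrix (Fin n) (Fin n) ℂ), 0 < δ → δ ≤ 1 →
      BKE T R H β δ Q → ∀ x ∈ T, (Matrix.trace (h x * (Q x)⁻¹)).re ≤ B := by
    intro δ Q hδ hδ1 hQ x hx
    have hQk := hQ.1
    have hQher : HerT T R Q := ⟨hQk.posDef, hQk.smooth, hQk.inv⟩
    obtain ⟨hφi, hφ⟩ := hrho5 Q hQher
    have hLM : ∀ y ∈ T, LM (fun y => ld Q y - ld H y) y = Q y - β y - (δ : ℂ) • H y - rho H y := by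
      intro y hy
      have h1 := hφ y hy
      have h2 := hQ.2 y hy
      rw [h2] at h1
      rw [h1]
      abel
    have hHd : ∀ y ∈ T, (((1 - δ : ℝ) : ℂ) • H y).PosSemidef := fun y hy =>
      smul_psd (D.ket.posDef y hy).posSemidef (by linarith)
    have p1 : ∀ y ∈ T, ((a : ℂ) • H y - (Q y - LM (fun y => ld Q y - ld H y) y)).PosSemidef := by
      intro y hy
      have e : (a : ℂ) • H y - (Q y - LM (fun y => ld Q y - ld H y) y) =
          ((K0 : ℂ) • H y - (rho H y + β y)) + ((1 - δ : ℝ) : ℂ) • H y := by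
        rw [hLM y hy, ha]
        push_cast
        rw [add_smul, sub_smul]
        abel
      rw [e]
      exact (hK0b y hy).2.add (hHd y hy)
    have p2 : ∀ y ∈ T, ((a : ℂ) • H y + LM (fun y => ld Q y - ld H y) y).PosSemidef := by
      intro y hy
      have e : (a : ℂ) • H y + LM (fun y => ld Q y - ld H y) y =
          ((K0 : ℂ) • H y - (rho H y + β y)) + ((1 - δ : ℝ) : ℂ) • H y + Q y := by
        rw [hLM y hy, ha]
        push_cast
        rw [add_smul, sub_smul]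
        abel
      rw [e]
      exact ((hK0b y hy).2.add (hHd y hy)).add (hQk.posDef y hy).posSemidef
    have hdens := hDb Q hQk p2
    obtain ⟨g1, g2⟩ := hGLG hn T R h Q (fun y => β y + (δ : ℂ) • H y) D.her hrbc hQk
      (fun y hy => (hβpsd y hy).add (smul_psd (D.ket.posDef y hy).posSemidef hδ.le))
      (fun y hy => by rw [hQ.2 y hy, sub_sub])
    have s1 := hSb Q (fun y => ld Q y - ld H y) (fun y => (Matrix.trace (h y * (Q y)⁻¹)).re)
      hQk hφi p1 hdens g1 (fun y hy => (g2 y hy).1) (fun y hy => (g2 y hy).2) x hx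
    have s2 := hAv δ Q hδ hδ1 hQ
    have hV : 0 < Pool.Agent.Helper95.HS.vol T κ Q := (hNULL0 T R Q hQk κ hκ).1
    have hI : 0 ≤ ∫ y in T, κ y * (Q y).det.re * (Matrix.trace (h y * (Q y)⁻¹)).re := by
      apply setIntegral_nonneg hE.isOpen.measurableSet
      intro y hy
      have hd : 0 < (Q y).det.re := by
        have := (hQk.posDef y hy).det_pos
        exact (Complex.pos_iff.1 this).1
      exact mul_nonneg (mul_nonneg (hκ.nonneg y) hd.le) (g2 y hy).1.le
    have s3 : (Matrix.trace (h x * (Q x)⁻¹)).re * Pool.Agent.Helper95.HS.vol T κ Q ≤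
        |C'| * C2 * Pool.Agent.Helper95.HS.vol T κ Q := by
      refine s1.trans ?_
      calc C' * ∫ y in T, κ y * (Q y).det.re * (Matrix.trace (h y * (Q y)⁻¹)).re
          ≤ |C'| * ∫ y in T, κ y * (Q y).det.re * (Matrix.trace (h y * (Q y)⁻¹)).re :=
            mul_le_mul_of_nonneg_right (le_abs_self _) hI
        _ ≤ |C'| * (C2 * Pool.Agent.Helper95.HS.vol T κ Q) :=
            mul_le_mul_of_nonneg_left s2 (abs_nonneg _)
        _ = _ := by ring
    have s4 : (Matrix.trace (h x * (Q x)⁻¹)).re ≤ |C'| * C2 := le_of_mul_le_mul_right s3 hV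
    rw [hB]
    linarith
  -- choice of δ
  set δ : ℝ := min 1 (1 / (2 * C * B)) with hδ
  have hCB : 0 < 2 * C * B := by positivity
  have hδpos : 0 < δ := lt_min one_pos (by positivity)
  have hδ1 : δ ≤ 1 := min_le_left _ _
  have hδ2 : δ * (C * B) ≤ 1 / 2 := by
    have h1 : δ ≤ 1 / (2 * C * B) := min_le_right _ _
    rw [le_div_iff₀ hCB] at h1
    linarith
  obtain ⟨Q, hQ⟩ := hGB1 T R H h D k P hP δ hδpos
  refine ⟨δ, Q, hδpos, hQ, ?_⟩
  intro x hx
  have hQx := hQ.1.posDef x hx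
  have h1 := le_tr_smul (D.her.posDef x hx).posSemidef hQx (key δ Q hδpos hδ1 hQ x hx)
  have h2 := (hcmp x hx).2
  -- `Q - δ H = (1/2) Q + (1/2 - δ C B) Q + δ C (B Q - h) + δ (C h - H)`
  have e : Q x - (δ : ℂ) • H x = ((1 / 2 : ℝ) : ℂ) • Q x + (((1 / 2 - δ * (C * B) : ℝ) : ℂ) • Q x +
      (((δ * C : ℝ) : ℂ) • ((B : ℂ) • Q x - h x) + ((δ : ℝ) : ℂ) • ((C : ℂ) • h x - H x))) := by
    ext i j
    simp only [Matrix.sub_apply, Matrix.add_apply, Matrix.smul_apply, smul_eq_mul]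
    push_cast
    ring
  rw [e]
  apply (smul_pd hQx (by norm_num)).add_posSemidef
  apply (smul_psd hQx.posSemidef (by linarith)).add
  exact (smul_psd h1 (by positivity)).add (smul_psd h2 hδpos.le)

end Pool.Agent.Helper15.RBC
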