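import Pool.Agent.Helper15.RBC.GoalsE
import Pool.Agent.Helper11.GS.GB4

/-! # RBC: existence for `δ = 0` (copy of GB4) -/

open Complex Metric Set Filter Topology MeasureTheory
open scoped ContDiff ComplexConjugate ComplexOrder Manifold Matrix

namespace Pool.Agent.Helper15.RBC

open Pool.Agent.Helper95.Lin Pool.Agent.Helper16.Abund Pool.Agent.Helper92.Orb
  Pool.Agent.Helper10.SP Pool.Agent.Helper95.RK Pool.Agent.Helper57.HS
  Pool.Agent.Helper15.HS Pool.Agent.Helper15.GS Pool.Agent.Helper57.RBC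
open Pool.Agent.Helper16.HS.AYTP

universe u

theorem rb4 (hGB3 : S_RB3.{u}) (hAYG : S_AYG.{u}) (hRHOI : S_RHOI.{u}) : S_RB4.{u} := by
  intro n hn T G _ R H h hD k P hP
  obtain ⟨δ, Q, -, ⟨hQ, hQe⟩, hpos⟩ := hGB3 hn T R H h hD k P hP
  have hX := lin_comb hD.ket (chf_ket hQ) hQ.inv δ hpos
  obtain ⟨Q', hQ', hQe'⟩ := step hAYG hRHOI hQ hX
  refine ⟨Q', hQ', fun x hx => ?_⟩
  rw [hQe' x hx, hQe x hx]
  push_cast
  module

end Pool.Agent.Helper15.RBC
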