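import Pool.Agent.Helper15.RBC.GoalsE
import Pool.Agent.Helper56.GS.GB5
import Pool.Agent.Helper15.RBC.AAZ

/-! # RBC: the form `β Q⁻¹` is a projector (copy of GB5) -/

open Complex Metric Set Filter Topology MeasureTheory
open scoped ContDiff ComplexConjugate ComplexOrder Manifold Matrix

namespace Pool.Agent.Helper15.RBC

open Pool.Agent.Helper95.Lin Pool.Agent.Helper16.Abund Pool.Agent.Helper92.Orb
  Pool.Agent.Helper10.SP Pool.Agent.Helper95.RK Pool.Agent.Helper57.HS
  Pool.Agent.Helper15.HS Pool.Agent.Helper15.GS Pool.Agent.Helper57.RBC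
open Pool.Agent.Helper56.GS.GB5

universe u

/-- RB5. -/
theorem rb5 (hPUE : Pool.Agent.Helper10.SP.S_PUE.{u}) (hMCAL : Pool.Agent.Helper15.HS.S_MCAL)
    (hCLG : Pool.Agent.Helper15.HS.S_CLG) (hAAPS : Pool.Agent.Helper95.HS.S_AAPS)
    (hTRI : Pool.Agent.Helper95.HS.S_TRI.{u}) (hNULL0 : Pool.Agent.Helper95.HS.S_NULL0.{u})
    (hTRC : Pool.Agent.Helper95.HS.S_TRC) (hKETP : Pool.Agent.Helper95.HS.S_KETP.{u})
    (hGPF : S_RPF.{u}) (hGVB : S_RVB.{u}) (hGAL : S_GAL) : S_RB5.{u} := by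
  intro n T G _ R H h hD k P hP Q hQ
  obtain ⟨hQk, hQe⟩ := hQ
  have hopen : IsOpen T := hD.ket.et.isOpen
  obtain ⟨κ, hκ⟩ := hPUE T R hD.ket.et
  have hgpf := hGPF T R H h hD k P hP
  have hCQ : CHF Q T := ⟨hQk.smooth, fun y hy => (hQk.posDef y hy).isHermitian, hQk.closed⟩
  have hYs : ∀ i j, ContDiffOn ℝ ∞ (fun x => (P x * h x) i j) T := hP.chf.smooth
  have hsI : InvF T R (fun x => (Matrix.trace (P x * h x * (Q x)⁻¹)).re) :=
    (hTRI T R Q hQk).1 (fun x => P x * h x) hYs hP.inv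
  have hrho : ∀ x ∈ T, rho Q x = Q x - P x * h x := fun x hx => by
    rw [hQe x hx]
    simp
  -- smoothness of the connection
  have hΓs : ∀ k i j, ContDiffOn ℝ ∞ (fun x => Gam h k x i j) T := by
    intro m i j
    have a1 := hMCAL T hopen h h hD.her.smooth hD.her.smooth
    have a2 := (a1.2.2.2.1 fun x hx => (hD.her.posDef x hx).det_pos.ne').1
    exact (hMCAL T hopen (cdM m h) (fun x => (h x)⁻¹) (fun i j => (a1.1 m i j).1) a2).2.1 i j
  have hclg := hCLG T hopen Q (fun x => P x * h x) (fun x => P x * h x) (Gam h) hCQ hQk.posDef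
    hrho hYs hP.chf.herm hΓs (fun x hx l => (hgpf x hx).2.1 l)
  set s : Cn n → ℝ := fun x => (Matrix.trace (P x * h x * (Q x)⁻¹)).re with hs
  obtain ⟨htr, -⟩ := (hKETP T R hQk.et).2.2 Q s hQk hsI
  set q : Cn n → ℝ := fun x => (Matrix.trace (P x * h x * (Q x)⁻¹ * (P x * h x) * (Q x)⁻¹)).re -
    2 * s x + k with hq
  set AA : Cn n → ℝ := fun x => (∑ k, ∑ l, (Q x)⁻¹ l k *
      Matrix.trace ((Gam Q k x - Gam h k x) * (P x * h x) * (Gam Q l x - Gam h l x)ᴴ *
        (Q x)⁻¹)).re with hAA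
  have hid : ∀ x ∈ T, (trL Q s x).re - s x + k = q x + AA x := by
    intro x hx
    have b1 := (hclg x hx).2.2.2
    have b2 : ∑ k, ∑ l, (Q x)⁻¹ l k *
        Matrix.trace (cdbM l (Gam h k) x * (P x * h x) * (Q x)⁻¹) = 0 := by
      refine Finset.sum_eq_zero fun a _ => Finset.sum_eq_zero fun b _ => ?_
      rw [(hgpf x hx).2.2.1 a b, Matrix.zero_mul, Matrix.trace_zero, mul_zero]
    rw [b2, add_zero] at b1
    rw [b1]
    simp only [add_re, neg_re, hq, hAA, hs]
    ring
  have hq0 : ∀ x ∈ T, 0 ≤ q x := fun x hx =>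
    (hGAL k (h x) (Q x) (P x) (hD.her.posDef x hx) (hQk.posDef x hx) (hP.proj x hx)
      (hP.herm x hx) (hP.tr x hx)).1
  have hA0 : ∀ x ∈ T, 0 ≤ AA x := fun x hx =>
    (hAAPS (Q x) (P x * h x) (fun k => Gam Q k x - Gam h k x) (hQk.posDef x hx)
      (hgpf x hx).1).2.1
  -- the function `f`
  set f : Cn n → ℝ := fun x => (trL Q s x).re - s x + k with hf
  have hf0 : ∀ x ∈ T, 0 ≤ f x := fun x hx => by
    simp only [hf]
    rw [hid x hx]
    exact add_nonneg (hq0 x hx) (hA0 x hx)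
  have hfI : InvF T R f := by
    refine ⟨(htr.1.sub hsI.1).add contDiffOn_const, ?_⟩
    intro γ x y hxy
    simp only [hf]
    have a1 := htr.2 γ x y hxy
    have a2 := hsI.2 γ x y hxy
    simp only at a1
    rw [a1, a2]
  have hdc : ContinuousOn (fun x => (Q x).det.re) T := det_cont hQk.smooth
  have hV : 0 < Pool.Agent.Helper95.HS.vol T κ Q := (hNULL0 T R Q hQk κ hκ).1
  have hav := avg_ge hTRC hopen hκ.test hκ.nonneg hQk.smooth hQk.posDef hYs
    (fun x hx => (hgpf x hx).1) hsI.1.continuousOn k hV.le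
    ((hGVB T R H h hD k P hP κ hκ).2 Q ⟨hQk, hQe⟩)
  have hint : ∫ x in T, κ x * (Q x).det.re * f x ≤ 0 := by
    have i1 : IntegrableOn (fun x => κ x * ((Q x).det.re * (trL Q s x).re)) T :=
      (testF_mul hopen hκ.test (hdc.mul htr.1.continuousOn)).integrableOn
    have i2 : IntegrableOn (fun x => κ x * ((Q x).det.re * s x)) T :=
      (testF_mul hopen hκ.test (hdc.mul hsI.1.continuousOn)).integrableOn
    have i3 : IntegrableOn (fun x => κ x * (Q x).det.re) T :=
      (testF_mul hopen hκ.test hdc).integrableOn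
    have e1 : ∫ x in T, κ x * (Q x).det.re * f x = ∫ x in T,
        (κ x * ((Q x).det.re * (trL Q s x).re) -
          (κ x * ((Q x).det.re * s x) - k * (κ x * (Q x).det.re))) := by
      refine setIntegral_congr_fun hopen.measurableSet fun x _ => ?_
      simp only [hf]
      ring
    have j3 : IntegrableOn (fun x => (k : ℝ) * (κ x * (Q x).det.re)) T := i3.const_mul _
    have j2 : IntegrableOn (fun x => κ x * ((Q x).det.re * s x) -
        (k : ℝ) * (κ x * (Q x).det.re)) T := i2.sub j3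
    rw [e1, integral_sub i1 j2, integral_sub i2 j3, integral_const_mul]
    have e2 : ∫ x in T, κ x * ((Q x).det.re * (trL Q s x).re) = 0 := by
      rw [← (hTRI T R Q hQk).2 κ hκ s hsI]
      refine setIntegral_congr_fun hopen.measurableSet fun x _ => ?_
      ring
    rw [e2]
    linarith
  have hz := (hNULL0 T R Q hQk κ hκ).2 f hfI hf0 hint
  intro x hx
  have z1 := hz x hx
  simp only [hf] at z1
  rw [hid x hx] at z1
  have z2 := hq0 x hx
  have z3 := hA0 x hx
  have z4 : q x = 0 := by linarith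
  have z5 : AA x = 0 := by linarith
  exact ⟨z4, aaz (Q x) (P x * h x) (fun k => Gam Q k x - Gam h k x) (hQk.posDef x hx)
    (hgpf x hx).1 z5⟩

end Pool.Agent.Helper15.RBC
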