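import Pool.Agent.Helper15.RBC.GoalsE
import Pool.Agent.Helper93.GS.GCLO
import Pool.Agent.Helper9.SP.ReglA

/-! # RBC: the curvature of `Q` vanishes on the kernel of `Q - P h` -/

open Complex Metric Set Filter Topology MeasureTheory
open scoped ContDiff ComplexConjugate ComplexOrder Manifold Matrix

namespace Pool.Agent.Helper15.RBC

open Pool.Agent.Helper95.Lin Pool.Agent.Helper16.Abund Pool.Agent.Helper92.Orb
  Pool.Agent.Helper10.SP Pool.Agent.Helper95.RK Pool.Agent.Helper57.HS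
  Pool.Agent.Helper15.HS Pool.Agent.Helper15.GS Pool.Agent.Helper57.RBC
open Pool.Agent.Helper9.SP (cdb_congr)

universe u

theorem cdbM_congr {n : ℕ} {X Y : Cn n → Matrix (Fin n) (Fin n) ℂ} {x : Cn n}
    (h : X =ᶠ[𝓝 x] Y) (l : Fin n) : cdbM l X x = cdbM l Y x := by
  ext i j
  unfold cdbM
  simp only [Matrix.of_apply]
  refine cdb_congr ?_ l
  filter_upwards [h] with y hy
  rw [hy]

/-- The connection matrix is smooth. -/
theorem gam_smooth {n : ℕ} (hM : S_MCAL) {T : Set (Cn n)} (hT : IsOpen T)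
    {h : Cn n → Matrix (Fin n) (Fin n) ℂ} (hs : ∀ i j, ContDiffOn ℝ ∞ (fun x => h x i j) T)
    (hp : ∀ x ∈ T, (h x).PosDef) (k i j : Fin n) :
    ContDiffOn ℝ ∞ (fun x => Gam h k x i j) T := by
  have hd : ∀ x ∈ T, (h x).det ≠ 0 := fun y hy => (hp y hy).det_pos.ne'
  have h1 := (hM T hT h h hs hs).1
  have h4 := ((hM T hT h h hs hs).2.2.2.1 hd).1
  exact (hM T hT (cdM k h) (fun y => (h y)⁻¹) (fun a b => (h1 k a b).1) h4).2.1 i j

/-- `(Db_l Gam Q k) β = 0`. -/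
theorem cdbGam {n : ℕ} (hM : S_MCAL) {T : Set (Cn n)} (hT : IsOpen T)
    {h Q β : Cn n → Matrix (Fin n) (Fin n) ℂ}
    (hhs : ∀ i j, ContDiffOn ℝ ∞ (fun x => h x i j) T) (hhp : ∀ x ∈ T, (h x).PosDef)
    (hQs : ∀ i j, ContDiffOn ℝ ∞ (fun x => Q x i j) T) (hQp : ∀ x ∈ T, (Q x).PosDef)
    (hβs : ∀ i j, ContDiffOn ℝ ∞ (fun x => β x i j) T) (hβh : ∀ x ∈ T, (β x).IsHermitian)
    (h1 : ∀ x ∈ T, ∀ l, cdM l β x = Gam h l x * β x)
    (h2 : ∀ x ∈ T, ∀ l m, cdbM m (Gam h l) x * β x = 0)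
    (h3 : ∀ x ∈ T, ∀ l, Adf h Q l x * β x = 0) :
    ∀ x ∈ T, ∀ l m, cdbM m (Gam Q l) x * β x = 0 := by
  intro x hx l m
  have e1 : ∀ y ∈ T, Gam Q l y * β y = Gam h l y * β y := by
    intro y hy
    have := h3 y hy l
    unfold Adf at this
    rw [Matrix.sub_mul, sub_eq_zero] at this
    exact this
  have e2 : cdbM m (fun y => Gam Q l y * β y) x = cdbM m (fun y => Gam h l y * β y) x := by
    refine cdbM_congr ?_ m
    filter_upwards [hT.mem_nhds hx] with y hy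
    exact e1 y hy
  have gQ := fun i j => gam_smooth hM hT hQs hQp l i j
  have gh := fun i j => gam_smooth hM hT hhs hhp l i j
  have e3 := ((hM T hT (Gam Q l) β gQ hβs).2.2.1 x hx m).2.1
  have e4 := ((hM T hT (Gam h l) β gh hβs).2.2.1 x hx m).2.1
  have e5 : cdbM m β x = β x * (Gam h m x)ᴴ := by
    rw [(Pool.Agent.Helper80.HS.cdM_herm hM hT β hβs hβh hx m).2, h1 x hx m,
      Matrix.conjTranspose_mul, (hβh x hx).eq]
  have e6 : Gam Q l x * cdbM m β x = Gam h l x * cdbM m β x := by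
    rw [e5, ← Matrix.mul_assoc, ← Matrix.mul_assoc, e1 x hx]
  rw [e3, e4, h2 x hx l m, zero_add, e6] at e2
  exact add_eq_right.1 e2

/-- RNUL. -/
theorem rnul (hM : S_MCAL) (hC : S_CSY) (hRPF : S_RPF.{u}) (hRB5 : S_RB5.{u}) (hGAL : S_GAL) :
    S_RNUL.{u} := by
  intro n T G _ R H h hd k P hP Q hQ x hx e he i j m
  have hT : IsOpen T := hd.ket.et.isOpen
  have hpf := hRPF T R H h hd k P hP
  have hb5 := hRB5 T R H h hd k P hP Q hQ
  have hCQ : CHF Q T := ⟨hQ.1.smooth, fun y hy => (hQ.1.posDef y hy).isHermitian, hQ.1.closed⟩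
  have hz := cdbGam hM hT hd.her.smooth hd.her.posDef hQ.1.smooth hQ.1.posDef hP.chf.smooth
    hP.chf.herm (fun y hy => (hpf y hy).2.1) (fun y hy => (hpf y hy).2.2.1)
    (fun y hy => (hb5 y hy).2)
  obtain ⟨hpsd, -⟩ := (hGAL k (h x) (Q x) (P x) (hd.her.posDef x hx) (hQ.1.posDef x hx)
    (hP.proj x hx) (hP.herm x hx) (hP.tr x hx)).2 (hb5 x hx).1
  -- `(Q - β) ē = 0`
  have k1 : (Q x - P x * h x) *ᵥ star e = 0 := by
    refine (hpsd.dotProduct_mulVec_zero_iff (star e)).1 ?_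
    rw [← he, star_star]
    unfold hermi dotProduct Matrix.mulVec dotProduct
    refine Finset.sum_congr rfl fun a _ => ?_
    rw [Finset.mul_sum]
    refine Finset.sum_congr rfl fun b _ => ?_
    simp only [Pi.star_apply, Complex.star_def]
    ring
  have k2 : Q x *ᵥ star e = (P x * h x) *ᵥ star e := by
    rw [Matrix.sub_mulVec, sub_eq_zero] at k1
    exact k1
  obtain ⟨c1, c2, c3⟩ := hC T hT Q hQ.1.posDef hQ.1.smooth x hx
  obtain ⟨c3, -⟩ := c3 hCQ
  -- the second slot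
  have k3 : ∀ a c d, ∑ b, crv Q x a b c d * conj (e b) = 0 := by
    intro a c d
    have e1 : ∑ b, crv Q x a b c d * conj (e b) =
        - ((cdbM d (Gam Q c) x * Q x) *ᵥ star e) a := by
      unfold Matrix.mulVec dotProduct
      rw [← Finset.sum_neg_distrib]
      refine Finset.sum_congr rfl fun b _ => ?_
      rw [c1 a b c d]
      simp only [Pi.star_apply, Complex.star_def]
      ring
    rw [e1, ← Matrix.mulVec_mulVec, k2, Matrix.mulVec_mulVec, hz x hx c d, Matrix.zero_mulVec]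
    simp
  have e2 : ∀ l, crv Q x i j m l = crv Q x i l m j := fun l => (c3 i j m l).2
  simp only [e2]
  exact k3 i m j

end Pool.Agent.Helper15.RBC
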