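import Pool.Agent.Helper57.RBC.Goals3
import Pool.Agent.Helper57.RBC.Closed
import Pool.Agent.Helper57.RBC.Tor
import Pool.Agent.Helper94.GS.GDZ
import Pool.Agent.Helper15.RBC.RNUL

/-! # RBC, packet RLP: pointwise properties of the limit -/

open Complex Metric Set Filter Topology MeasureTheory
open scoped ContDiff ComplexConjugate ComplexOrder Manifold Matrix

namespace Pool.Agent.Helper15.RBC

open Pool.Agent.Helper95.Lin Pool.Agent.Helper16.Abund Pool.Agent.Helper92.Orb
  Pool.Agent.Helper10.SP Pool.Agent.Helper95.RK Pool.Agent.Helper57.HS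
  Pool.Agent.Helper15.HS Pool.Agent.Helper15.GS Pool.Agent.Helper57.RBC
open Pool.Agent.Helper10.RBC (dn)
open Pool.Agent.Helper56.HS.DBZ (contM cont_inv cont_trace trace_nonneg)
open Pool.Agent.Helper19.HS (hermi_ext hermi_J JM nat_form trace_real)

universe u

variable {n : ℕ}

/-! ## Joint continuity -/

theorem jc1 {T : Set (Cn n)} {f : Cn n → ℂ} (hf : ContinuousOn f T) :
    ContinuousOn (fun q : Cn n × Matrix (Fin n) (Fin n) ℂ => f q.1) (T ×ˢ univ) :=
  hf.comp continuousOn_fst fun _ hq => hq.1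

theorem jc2 {T : Set (Cn n)} (a c : Fin n) :
    ContinuousOn (fun q : Cn n × Matrix (Fin n) (Fin n) ℂ => q.2 a c) (T ×ˢ univ) := by
  have h1 : Continuous fun q : Cn n × Matrix (Fin n) (Fin n) ℂ => q.2 a c := by fun_prop
  exact h1.continuousOn

theorem jc_mul {S : Set (Cn n × Matrix (Fin n) (Fin n) ℂ)}
    {X Y : Cn n × Matrix (Fin n) (Fin n) ℂ → Matrix (Fin n) (Fin n) ℂ}
    (hX : ∀ a c, ContinuousOn (fun q => X q a c) S) (hY : ∀ a c, ContinuousOn (fun q => Y q a c) S)
    (a c : Fin n) : ContinuousOn (fun q => (X q * Y q) a c) S := by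
  simp only [Matrix.mul_apply]
  exact continuousOn_finsetSum _ fun p _ => (hX a p).mul (hY p c)

/-- `h⁻¹ B = ε Q⁻¹`. -/
theorem inv_Bep {ε : ℝ} {h Q : Cn n → Matrix (Fin n) (Fin n) ℂ} {x : Cn n} (hh : (h x).PosDef) :
    (h x)⁻¹ * Bep ε h Q x = (ε : ℂ) • (Q x)⁻¹ := by
  have hu : IsUnit (h x).det := isUnit_iff_ne_zero.2 hh.det_pos.ne'
  unfold Bep
  rw [Matrix.mul_smul, ← Matrix.mul_assoc, Matrix.nonsing_inv_mul _ hu, Matrix.one_mul]

/-- A function which is continuous jointly is bounded on bounded sets. -/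
theorem bd_joint {T C : Set (Cn n)} (hCT : C ⊆ T) (hC : IsCompact C)
    {Φ : Cn n → Matrix (Fin n) (Fin n) ℂ → ℝ}
    (hΦ : ContinuousOn (fun q : Cn n × Matrix (Fin n) (Fin n) ℂ => Φ q.1 q.2) (T ×ˢ univ))
    (K : ℝ) : ∃ M : ℝ, ∀ x ∈ C, ∀ X : Matrix (Fin n) (Fin n) ℂ, (∀ a c, ‖X a c‖ ≤ K) →
    |Φ x X| ≤ M := by
  set Ψ : Cn n × (Fin n → Fin n → ℂ) → ℝ := fun q => Φ q.1 (Matrix.of q.2) with hΨ
  have hΨc : ContinuousOn Ψ (T ×ˢ univ) := hΦ
  set B : Set (Fin n → Fin n → ℂ) := Set.pi univ fun _ => Set.pi univ fun _ => closedBall 0 K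
  have hBc : IsCompact B := isCompact_univ_pi fun _ => isCompact_univ_pi fun _ =>
    isCompact_closedBall _ _
  have hsub : C ×ˢ B ⊆ T ×ˢ univ := fun q hq => ⟨hCT hq.1, mem_univ _⟩
  obtain ⟨M, hM⟩ := (hC.prod hBc).exists_bound_of_continuousOn (hΨc.mono hsub)
  refine ⟨M, fun x hx X hX => ?_⟩
  have mX : ((x, X) : Cn n × (Fin n → Fin n → ℂ)) ∈ C ×ˢ B := ⟨hx, fun a _ => fun c _ => by
    rw [mem_closedBall_zero_iff]
    exact hX a c⟩
  have h2 := hM _ mX
  rw [Real.norm_eq_abs] at h2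
  exact h2

/-- RLP. -/
theorem rlp (hINVK : S_INVK.{u}) (hM : S_MCAL) (hARRB : S_ARRB.{u}) : S_RLP.{u} := by
  intro n T G _ R H h hD κ hκ A s S N φ H' ε Q hC
  have hTo : IsOpen T := hD.ket.et.isOpen
  have hctx := hC.ctx
  have hhp := hD.her.posDef
  have hhs := hD.her.smooth
  have hQk : ∀ j, KEt T R (Q j) := fun j => (hC.seq.tke j).ket
  have hQer : ∀ j, HerT T R (Q j) := fun j => ⟨(hQk j).posDef, (hQk j).smooth, (hQk j).inv⟩
  have hQC : ∀ j, CHF (Q j) T := fun j => ⟨(hQk j).smooth, fun y hy =>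
    ((hQk j).posDef y hy).isHermitian, (hQk j).closed⟩
  have hε : ∀ j, 0 < ε j := hC.seq.eps
  have hε1 : ∀ j, ε j ≤ 1 := fun j => (hC.seq.eps_le j).trans (by
    rw [div_le_one (by positivity)]
    have : (0 : ℝ) ≤ j := Nat.cast_nonneg j
    linarith)
  have hinvk := fun j => hINVK T R hD.ket.et h (Q j) hD.her (hQer j)
  have hAA0 : ∀ j, ∀ x ∈ T, 0 ≤ AAt h (Q j) x := by
    intro j x hx
    rw [AAt_eq]
    have hK := ((hQk j).posDef x hx).posSemidef.inv
    exact (Complex.nonneg_iff.1 (FT_nonneg _ hK hK (hhp x hx).posSemidef)).1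
  have hKK0 : ∀ j, ∀ x ∈ T, KKt h (Q j) x ≤ 0 := fun j x hx =>
    hD.rbc x hx _ ((hQk j).posDef x hx).posSemidef.inv
  have hBtr : ∀ j x, Matrix.trace (Bep (ε j) h (Q j) x) =
      (ε j : ℂ) * Matrix.trace (h x * (Q j x)⁻¹) := by
    intro j x
    unfold Bep
    rw [Matrix.trace_smul, smul_eq_mul]
  have hherm := hctx.herm
  -- psd
  have hpsd : ∀ x ∈ T, (A x * h x).PosSemidef := by
    intro x hx
    have hH : (A x * h x).IsHermitian := by
      rw [Matrix.IsHermitian, Matrix.conjTranspose_mul, (hhp x hx).isHermitian.eq, ← hherm x hx]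
    refine Matrix.PosSemidef.of_dotProduct_mulVec_nonneg hH fun v => ?_
    rw [Complex.nonneg_iff]
    refine ⟨?_, (hH.im_star_dotProduct_mulVec_self v).symm⟩
    have key := closed_cond hctx (Φ := fun x X => - (star v ⬝ᵥ ((X * h x) *ᵥ v)).re)
      (E := fun _ _ => 0) ?_ (fun j => continuousOn_const) ?_ ?_ x hx
    · have : - (star v ⬝ᵥ ((A x * h x) *ᵥ v)).re ≤ 0 := key
      linarith
    · refine (Complex.continuous_re.comp_continuousOn ?_).neg
      simp only [dotProduct, Matrix.mulVec]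
      refine continuousOn_finsetSum _ fun i _ => continuousOn_const.mul
        (continuousOn_finsetSum _ fun j _ => ContinuousOn.mul ?_ continuousOn_const)
      exact jc_mul (X := fun q => q.2) (Y := fun q => h q.1) (fun a c => jc2 a c)
        (fun a c => jc1 (hctx.Hc a c)) i j
    · intro j y hy
      have h1 : (Bep (ε j) h (Q j) y * h y).PosSemidef := by
        have h2 : Bep (ε j) h (Q j) y * h y = (ε j : ℂ) • (h y * (Q j y)⁻¹ * (h y)ᴴ) := by
          unfold Bep
          rw [(hhp y hy).isHermitian.eq, Matrix.smul_mul]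
        rw [h2]
        exact (((hQk j).posDef y hy).posSemidef.inv.mul_mul_conjTranspose_same (h y)).smul
          (by exact_mod_cast (hε j).le)
      have h3 := h1.dotProduct_mulVec_nonneg v
      have h4 := (Complex.nonneg_iff.1 h3).1
      show - (star v ⬝ᵥ ((Bep (ε j) h (Q j) y * h y) *ᵥ v)).re ≤ 0
      linarith
    · intro C _ _
      simp
  -- trace
  have htr : ∀ x ∈ T, Matrix.trace (A x) = (s : ℂ) := by
    obtain ⟨K, hK0, hK⟩ := hC.dle
    have key := closed_cond hctx (Φ := fun _ X => ‖Matrix.trace X - (s : ℂ)‖)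
      (E := fun j x => (S j - ε j * (Matrix.trace (h x * (Q j x)⁻¹)).re) + (S j - s)) ?_ ?_ ?_ ?_
    · intro x hx
      exact sub_eq_zero.1 (norm_eq_zero.1 (le_antisymm (key x hx) (norm_nonneg _)))
    · refine (ContinuousOn.sub ?_ continuousOn_const).norm
      simp only [Matrix.trace, Matrix.diag_apply]
      exact continuousOn_finsetSum _ fun p _ => jc2 p p
    · intro j
      refine ContinuousOn.add (continuousOn_const.sub (continuousOn_const.mul ?_)) continuousOn_const
      exact cont_trace (contM hhs) (contM (hQk j).smooth) fun y hy =>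
        ((hQk j).posDef y hy).det_pos.ne'
    · intro j x hx
      have e1 : Matrix.trace (Bep (ε j) h (Q j) x) =
          ((ε j * (Matrix.trace (h x * (Q j x)⁻¹)).re : ℝ) : ℂ) := by
        rw [hBtr j x]
        have h0 := trace_real (hhp x hx).isHermitian ((hQk j).posDef x hx).isHermitian.inv
        refine Complex.ext ?_ ?_
        · rw [Complex.re_ofReal_mul, Complex.ofReal_re]
        · rw [Complex.im_ofReal_mul, h0, mul_zero, Complex.ofReal_im]
      show ‖Matrix.trace (Bep (ε j) h (Q j) x) - (s : ℂ)‖ ≤ _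
      rw [e1, ← Complex.ofReal_sub, Complex.norm_real, Real.norm_eq_abs, abs_le]
      have h1 := hC.seq.m_le j x hx
      have h2 := hC.seq.S_ge j
      constructor <;> linarith
    · intro C hCT hCc
      have h1 := hC.v C hCT hCc
      have h2 : Tendsto (fun j => ∫ x in C, dn T κ H (Q j) x * (S j - s)) atTop (𝓝 0) := by
        have h3 : ∀ j, 0 ≤ ∫ x in C, dn T κ H (Q j) x * (S j - s) := fun j =>
          setIntegral_nonneg hCc.measurableSet fun x hx => mul_nonneg (hctx.d0 j x (hCT hx))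
            (sub_nonneg.2 (hC.seq.S_ge j))
        have h4 : ∀ j, ∫ x in C, dn T κ H (Q j) x * (S j - s) ≤
            (K * volume.real C) * (1 / ((j : ℝ) + 1)) := by
          intro j
          have h5 : ∫ x in C, dn T κ H (Q j) x * (S j - s) ≤
              ∫ _x in C, K * (1 / ((j : ℝ) + 1)) := by
            refine setIntegral_mono_on
              ((((hctx.dc j).mono hCT).mul continuousOn_const).integrableOn_compact hCc)
              (integrableOn_const hCc.measure_lt_top.ne) hCc.measurableSet fun x hx => ?_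
            have h6 := hC.seq.S_le j
            exact mul_le_mul (hK j x (hCT hx)) (by linarith)
              (sub_nonneg.2 (hC.seq.S_ge j)) hK0.le
          refine h5.trans (le_of_eq ?_)
          rw [setIntegral_const, smul_eq_mul]
          ring
        refine squeeze_zero h3 h4 ?_
        have h7 := (tendsto_one_div_add_atTop_nhds_zero_nat (𝕜 := ℝ)).const_mul (K * volume.real C)
        rw [mul_zero] at h7
        exact h7
      have h3 := h1.add h2
      rw [add_zero] at h3
      refine h3.congr fun j => ?_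
      rw [← integral_add]
      · refine integral_congr_ae (Filter.Eventually.of_forall fun x => ?_)
        simp only
        ring
      · refine (((hctx.dc j).mul (continuousOn_const.sub (continuousOn_const.mul
          (cont_trace (contM hhs) (contM (hQk j).smooth) fun y hy =>
            ((hQk j).posDef y hy).det_pos.ne')))).mono hCT).integrableOn_compact hCc
      · exact (((hctx.dc j).mono hCT).mul continuousOn_const).integrableOn_compact hCc
  -- invariance
  have hinv : InvH R fun x => A x * h x := by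
    intro U τ harr x₀ hx₀ u v
    obtain ⟨hUo, hτd, γ, hγ⟩ := harr
    have hmem : ∀ x ∈ U, x ∈ T ∧ τ x ∈ T := fun x hx => hD.ket.et.mem γ x (τ x) (hγ x hx)
    obtain ⟨hA1, hA2, hA3, -⟩ := hARRB T R hD.ket.et
    obtain ⟨U₁, τ₁, σ, hxU₁, hU₁T, hL₁, hτ₁, hinj₁, -⟩ := hA1 γ x₀ (τ x₀) (hγ x₀ hx₀)
    have hev := hA3 γ U U₁ τ τ₁ ⟨hUo, hτd, hγ⟩ hL₁ x₀ hx₀ hxU₁ hτ₁.symm
    obtain ⟨V, hV, hVo, hxV⟩ := _root_.mem_nhds_iff.mp
      (Filter.inter_mem hev (Filter.inter_mem (hUo.mem_nhds hx₀) (hL₁.1.mem_nhds hxU₁)))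
    have hVU : V ⊆ U := fun x hx => (hV hx).2.1
    have hinj : InjOn τ V := by
      intro x hx y hy hxy
      have e1 : τ x = τ₁ x := (hV hx).1
      have e2 : τ y = τ₁ y := (hV hy).1
      exact hinj₁ (hV hx).2.2 (hV hy).2.2 (by rw [← e1, ← e2, hxy])
    refine hctx.nat hVo (fun x hx => (hmem x (hVU hx)).1) (hτd.mono hVU)
      (fun x hx => (hmem x (hVU hx)).2) (fun x hx => (hA2 γ U τ ⟨hUo, hτd, hγ⟩ x (hVU hx)).1)
      ?_ hinj ?_ u v x₀ hxV
    · intro j x hx
      exact hC.dinv j γ x (τ x) (hγ x (hVU hx))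
    · intro j x hx u' v'
      have hxT := (hmem x (hVU hx)).1
      have e1 : h x = JM (fderiv ℂ τ x) * h (τ x) * (JM (fderiv ℂ τ x))ᴴ := by
        refine hermi_ext fun a b => ?_
        rw [← hermi_J]
        exact (hD.her.inv U τ ⟨hUo, hτd, γ, hγ⟩ x (hVU hx) a b).symm
      have e2 : Q j x = JM (fderiv ℂ τ x) * Q j (τ x) * (JM (fderiv ℂ τ x))ᴴ := by
        refine hermi_ext fun a b => ?_
        rw [← hermi_J]
        exact ((hQk j).inv U τ ⟨hUo, hτd, γ, hγ⟩ x (hVU hx) a b).symm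
      have e3 := nat_form e1 e2 ((hQk j).posDef x hxT).det_pos.ne'
      rw [hermi_J]
      congr 1
      unfold Bep
      rw [Matrix.smul_mul, Matrix.smul_mul, Matrix.mul_smul, Matrix.smul_mul, e3]
  -- the form `h⁻¹ X`
  have jcX : ∀ a c, ContinuousOn (fun q : Cn n × Matrix (Fin n) (Fin n) ℂ =>
      ((h q.1)⁻¹ * q.2) a c) (T ×ˢ univ) :=
    jc_mul (X := fun q => (h q.1)⁻¹) (Y := fun q => q.2) (fun a c => jc1 (hctx.Ic a c))
      fun a c => jc2 a c
  -- curvature
  have hcrv : ∀ x ∈ T, (crvP h ((h x)⁻¹ * A x) ((h x)⁻¹ * A x) x).re = 0 := by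
    have key := closed_cond hctx
      (Φ := fun x X => |(crvP h ((h x)⁻¹ * X) ((h x)⁻¹ * X) x).re|)
      (E := fun j x => ε j * (- KKt h (Q j) x)) ?_ ?_ ?_ hC.kk
    · intro x hx
      exact abs_eq_zero.1 (le_antisymm (key x hx) (abs_nonneg _))
    · refine (Complex.continuous_re.comp_continuousOn ?_).abs
      unfold crvP
      refine continuousOn_finsetSum _ fun i _ => continuousOn_finsetSum _ fun j _ =>
        continuousOn_finsetSum _ fun k _ => continuousOn_finsetSum _ fun l _ => ?_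
      exact ((jcX j i).mul (jcX l k)).mul (jc1 ((hinvk 0).2.2.2 i j k l))
    · intro j
      exact continuousOn_const.mul (hinvk j).1.neg
    · intro j x hx
      have e1 : crvP h ((h x)⁻¹ * Bep (ε j) h (Q j) x) ((h x)⁻¹ * Bep (ε j) h (Q j) x) x =
          ((ε j ^ 2 : ℝ) : ℂ) * crvP h (Q j x)⁻¹ (Q j x)⁻¹ x := by
        rw [inv_Bep (hhp x hx), Pool.Agent.Helper94.GS.crvP_left]
        have h2 := Pool.Agent.Helper94.GS.crvP_right h (Q j x)⁻¹ (Q j x)⁻¹ 0 (ε j : ℂ) x
        have h3 : crvP h (Q j x)⁻¹ 0 x = 0 := by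
          unfold crvP
          simp
        rw [sub_zero, h3, sub_zero] at h2
        rw [h2]
        push_cast
        ring
      have h1 := hKK0 j x hx
      have h2 : KKt h (Q j) x = (crvP h (Q j x)⁻¹ (Q j x)⁻¹ x).re := rfl
      show |(crvP h ((h x)⁻¹ * Bep (ε j) h (Q j) x) ((h x)⁻¹ * Bep (ε j) h (Q j) x) x).re| ≤
        ε j * (- KKt h (Q j) x)
      rw [e1, Complex.re_ofReal_mul, ← h2, abs_le]
      have h3 := hε j
      have h4 := hε1 j
      have h5 : 0 ≤ ε j * (1 - ε j) := mul_nonneg h3.le (by linarith)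
      constructor
      · nlinarith [mul_nonneg h5 (neg_nonneg.2 h1)]
      · nlinarith [mul_nonneg h5 (neg_nonneg.2 h1), mul_nonneg h3.le (neg_nonneg.2 h1)]
  -- torsion
  have htor : ∀ x ∈ T, ∀ m i p, ∑ k, A x m k * (Gam h k x i p - Gam h i x k p) = 0 := by
    have hΦ : ContinuousOn (fun q : Cn n × Matrix (Fin n) (Fin n) ℂ =>
        (FT (tors h q.1) ((h q.1)⁻¹ * q.2) (h q.1)⁻¹ (h q.1)).re) (T ×ˢ univ) := by
      refine Complex.continuous_re.comp_continuousOn ?_
      unfold FT tors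
      refine continuousOn_finsetSum _ fun k _ => continuousOn_finsetSum _ fun l _ =>
        continuousOn_finsetSum _ fun i _ => continuousOn_finsetSum _ fun j _ =>
        continuousOn_finsetSum _ fun q _ => continuousOn_finsetSum _ fun p _ => ?_
      have g : ∀ k i p, ContinuousOn (fun q : Cn n × Matrix (Fin n) (Fin n) ℂ =>
          Gam h k q.1 i p) (T ×ˢ univ) := fun k i p =>
        jc1 (gam_smooth hM hTo hhs hhp k i p).continuousOn
      refine (((jcX l k).mul (jc1 (hctx.Ic j i))).mul (jc1 (hctx.Hc p q))).mul ?_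
      exact ((g k i p).sub (g i k p)).mul
        (Complex.continuous_conj.comp_continuousOn ((g l j q).sub (g j l q)))
    set Φ : Cn n → Matrix (Fin n) (Fin n) ℂ → ℝ := fun x X =>
      (FT (tors h x) ((h x)⁻¹ * X) (h x)⁻¹ (h x)).re with hΦd
    have hEc : ∀ j, ContinuousOn (fun x => Φ x (Bep (ε j) h (Q j) x)) T := by
      intro j
      have hBc : ContinuousOn (fun x => Bep (ε j) h (Q j) x) T :=
        continuousOn_pi.2 fun a => continuousOn_pi.2 fun c => hctx.Bc j a c
      exact ContinuousOn.comp (f := fun x => (x, Bep (ε j) h (Q j) x)) hΦ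
        (continuousOn_id.prodMk hBc) fun x hx => ⟨hx, mem_univ _⟩
    have hf0 : ∀ j, ∀ x ∈ T, 0 ≤ Φ x (Bep (ε j) h (Q j) x) := by
      intro j x hx
      have h1 : ((h x)⁻¹ * Bep (ε j) h (Q j) x).PosSemidef := by
        rw [inv_Bep (hhp x hx)]
        exact ((hQk j).posDef x hx).posSemidef.inv.smul (by exact_mod_cast (hε j).le)
      exact (Complex.nonneg_iff.1 (FT_nonneg (tors h x) h1 (hhp x hx).posSemidef.inv
        (hhp x hx).posSemidef)).1
    have hfle : ∀ j, ∀ x ∈ T, Φ x (Bep (ε j) h (Q j) x) ≤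
        4 * (Matrix.trace (Q j x * (h x)⁻¹)).re * (ε j * AAt h (Q j) x) := by
      intro j x hx
      have hK := ((hQk j).posDef x hx).posSemidef.inv
      have h1 := tors_le (hQC j) (hQk j).posDef hhp hx
      have h2 : (FT (tors h x) (Q j x)⁻¹ (h x)⁻¹ (h x)).re ≤
          (Matrix.trace (Q j x * (h x)⁻¹)).re * (FT (tors h x) (Q j x)⁻¹ (Q j x)⁻¹ (h x)).re := by
        have h3 := Pool.Agent.Helper94.GS.tr_inv ((hQk j).posDef x hx) (hhp x hx)
        have h4 := (Complex.nonneg_iff.1 (FT_nonneg (tors h x) hK h3 (hhp x hx).posSemidef)).1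
        rw [FT_right, Complex.sub_re, Complex.re_ofReal_mul] at h4
        linarith
      have h5 : 0 ≤ (Matrix.trace (Q j x * (h x)⁻¹)).re :=
        trace_nonneg ((hQk j).posDef x hx).posSemidef (hhp x hx).posSemidef.inv
      have h6 : Φ x (Bep (ε j) h (Q j) x) =
          ε j * (FT (tors h x) (Q j x)⁻¹ (h x)⁻¹ (h x)).re := by
        show (FT (tors h x) ((h x)⁻¹ * Bep (ε j) h (Q j) x) (h x)⁻¹ (h x)).re = _
        rw [inv_Bep (hhp x hx), FT_smul, Complex.re_ofReal_mul]
      rw [h6]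
      have h7 := mul_le_mul_of_nonneg_left h1 h5
      have h8 := mul_le_mul_of_nonneg_left (h2.trans h7) (hε j).le
      refine h8.trans (le_of_eq ?_)
      ring
    have hlim : ∀ C ⊆ T, IsCompact C → Tendsto (fun j => ∫ x in C, dn T κ H (Q j) x *
        Φ x (Bep (ε j) h (Q j) x)) atTop (𝓝 0) := by
      intro C hCT hCc
      obtain ⟨K, hK0, hK⟩ := hC.dle
      obtain ⟨B, hB⟩ := hC.gB C hCT hCc
      obtain ⟨Kb, hKb⟩ := hctx.Bb C hCT hCc
      obtain ⟨M, hM'⟩ := bd_joint (Φ := Φ) hCT hCc hΦ Kb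
      refine Pool.Agent.Helper94.GS.tend hCc (E := K) (K := 4 * |M|) (B := B)
        (g := fun j x => (Matrix.trace (Q j x * (h x)⁻¹)).re)
        (a := fun j x => ε j * AAt h (Q j) x) (fun j => (hctx.dc j).mono hCT) ?_ ?_
        (fun j x hx => hctx.d0 j x (hCT hx)) (fun j x hx => hK j x (hCT hx))
        (fun j x hx => hf0 j x (hCT hx)) ?_ ?_ hK0.le ?_ hB (hC.aa C hCT hCc)
      · intro j
        exact (cont_trace (contM (hQk j).smooth) (contM hhs) fun y hy =>
          (hhp y hy).det_pos.ne').mono hCT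
      · intro j
        exact (continuousOn_const.mul (hinvk j).2.1).mono hCT
      · intro j x hx
        exact trace_nonneg ((hQk j).posDef x (hCT hx)).posSemidef
          (hhp x (hCT hx)).posSemidef.inv
      · intro j x hx
        exact mul_nonneg (hε j).le (hAA0 j x (hCT hx))
      · intro j x hx
        have h1 := hf0 j x (hCT hx)
        have h2 := hfle j x (hCT hx)
        have h3 : Φ x (Bep (ε j) h (Q j) x) ≤ |M| :=
          ((le_abs_self _).trans (hM' x hx _ (hKb j x hx))).trans (le_abs_self M)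
        have h4 : Φ x (Bep (ε j) h (Q j) x) ^ 2 ≤ |M| * Φ x (Bep (ε j) h (Q j) x) := by
          rw [sq]
          exact mul_le_mul_of_nonneg_right h3 h1
        have h5 := mul_le_mul_of_nonneg_left h2 (abs_nonneg M)
        refine (h4.trans h5).trans (le_of_eq ?_)
        ring
    have key := closed_cond hctx (Φ := Φ)
      (E := fun j x => Φ x (Bep (ε j) h (Q j) x)) hΦ hEc (fun j x _ => le_rfl) hlim
    intro x hx m i p
    have hU : ((h x)⁻¹ * A x).PosSemidef := by
      have hu : IsUnit (h x).det := isUnit_iff_ne_zero.2 (hhp x hx).det_pos.ne'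
      have h1 := (hpsd x hx).mul_mul_conjTranspose_same (h x)⁻¹
      rw [(hhp x hx).inv.isHermitian.eq] at h1
      have e : (h x)⁻¹ * (A x * h x) * (h x)⁻¹ = (h x)⁻¹ * A x := by
        rw [← Matrix.mul_assoc, Matrix.mul_assoc ((h x)⁻¹ * A x), Matrix.mul_nonsing_inv _ hu,
          Matrix.mul_one]
      rw [e] at h1
      exact h1
    have h0 := FT_zero (tors h x) hU (hhp x hx).inv (hhp x hx) (key x hx)
    have hu : IsUnit (h x).det := isUnit_iff_ne_zero.2 (hhp x hx).det_pos.ne'
    have hA : ∀ k, A x m k = ∑ l, h x m l * ((h x)⁻¹ * A x) l k := by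
      intro k
      rw [← Matrix.mul_apply, ← Matrix.mul_assoc, Matrix.mul_nonsing_inv _ hu, Matrix.one_mul]
    have e1 : ∑ k, A x m k * (Gam h k x i p - Gam h i x k p) =
        ∑ l, h x m l * ∑ k, ((h x)⁻¹ * A x) l k * tors h x k i p := by
      simp only [hA, Finset.sum_mul, Finset.mul_sum]
      rw [Finset.sum_comm]
      refine Finset.sum_congr rfl fun l _ => Finset.sum_congr rfl fun k _ => ?_
      unfold tors
      ring
    rw [e1]
    simp only [h0, mul_zero, Finset.sum_const_zero]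
  exact ⟨hC.seq, hC.holo, hherm, hpsd, hinv, htr, hctx.Bb, hctx.conv, hcrv, htor⟩

end Pool.Agent.Helper15.RBC
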