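import Pool.Agent.Helper15.RBC.GoalsE
import Pool.Agent.Helper70.GS.GPF

/-! # RBC: facts on the projector (copy of GPF) -/

open Complex Metric Set Filter Topology MeasureTheory
open scoped ContDiff ComplexConjugate ComplexOrder Manifold Matrix

namespace Pool.Agent.Helper15.RBC

open Pool.Agent.Helper95.Lin Pool.Agent.Helper16.Abund Pool.Agent.Helper92.Orb
  Pool.Agent.Helper10.SP Pool.Agent.Helper95.RK Pool.Agent.Helper57.HS
  Pool.Agent.Helper15.HS Pool.Agent.Helper15.GS Pool.Agent.Helper57.RBC
open Pool.Agent.Helper70.GS (proj_eq_one)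

universe u

theorem rpf (hCSY : S_CSY) (hPARP : S_PARP) : S_RPF.{u} := by
  intro n T G _ R H h hD k P hP x hx
  have hT : IsOpen T := hD.ket.et.isOpen
  have hhp := hD.her.posDef
  have hhs := hD.her.smooth
  have hpar := hPARP T hT h P hhp hhs hP.holo hP.herm x hx
  have hPP := hP.proj x hx
  have hPh := hP.herm x hx
  refine ⟨?_, fun l => (hpar l).2.1, ?_, ?_, ?_⟩
  · have e : P x * h x = P x * h x * (P x)ᴴ := by
      rw [Matrix.mul_assoc, ← hPh, ← Matrix.mul_assoc, hPP]
    rw [e]
    exact (hhp x hx).posSemidef.mul_mul_conjTranspose_same (P x)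
  · intro l m
    have e : cdbM m (Gam h l) x * (P x * h x) = P x * (cdbM m (Gam h l) x * h x) := by
      rw [← Matrix.mul_assoc, (hpar l).2.2 m, Matrix.mul_assoc]
    rw [e]
    ext i j
    rw [Matrix.mul_apply, Matrix.zero_apply]
    have h0 := hP.null x hx i j l m
    have h1 : ∀ p, P x i p * (cdbM m (Gam h l) x * h x) p j = -(P x i p * crv h x p j l m) := by
      intro p
      rw [(hCSY T hT h hhp hhs x hx).1 p j l m]
      ring
    rw [Finset.sum_congr rfl fun p _ => h1 p, Finset.sum_neg_distrib, h0, neg_zero]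
  · intro t
    refine ⟨?_, Pool.Agent.Helper32.HS.proj_det (hhp x hx) hPP hPh (hP.tr x hx) t⟩
    have e1 : P x * (P x * h x) = P x * h x := by rw [← Matrix.mul_assoc, hPP]
    rw [Matrix.add_mul, Matrix.one_mul, Matrix.smul_mul, Matrix.mul_add, hP.ric x hx, zero_add,
      e1, add_smul, one_smul]
    abel
  · intro hk
    refine proj_eq_one hPP ?_
    rw [hP.tr x hx, hk]

end Pool.Agent.Helper15.RBC
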