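import Pool.Agent.Helper15.RBC.GoalsE
import Pool.Agent.Helper42.GS.GVB
import Pool.Agent.Helper2.HS.NULL0

/-! # RBC: bounds for the volumes -/

open Complex Metric Set Filter Topology MeasureTheory
open scoped ContDiff ComplexConjugate ComplexOrder Manifold Matrix

namespace Pool.Agent.Helper15.RBC

open Pool.Agent.Helper95.Lin Pool.Agent.Helper16.Abund Pool.Agent.Helper92.Orb
  Pool.Agent.Helper10.SP Pool.Agent.Helper95.RK Pool.Agent.Helper57.HS
  Pool.Agent.Helper15.HS Pool.Agent.Helper15.GS Pool.Agent.Helper57.RBC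

universe u

/-- Continuity of the integral of `κ det (A + s H)` in `s`. -/
theorem cont_vol {n : ℕ} {T : Set (Cn n)} (hT : IsOpen T) {κ : Cn n → ℝ} (hκ : TestF T κ)
    {A H : Cn n → Matrix (Fin n) (Fin n) ℂ} (hA : ∀ i j, ContinuousOn (fun x => A x i j) T)
    (hH : ∀ i j, ContinuousOn (fun x => H x i j) T) :
    ContinuousOn (fun s : ℝ => ∫ x in T, κ x * (A x + (s : ℂ) • H x).det.re) (Icc (0 : ℝ) 2) := by
  set K := tsupport κ with hKdef
  have hKc : IsCompact K := hκ.2.1
  have hKT : K ⊆ T := hκ.2.2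
  have hMat : ContinuousOn (fun p : Cn n × ℝ =>
      A p.1 + ((p.2 : ℝ) : ℂ) • H p.1) (K ×ˢ Icc (0 : ℝ) 2) := by
    have hf : ∀ f : Cn n → ℂ, ContinuousOn f T →
        ContinuousOn (fun p : Cn n × ℝ => f p.1) (K ×ˢ Icc (0 : ℝ) 2) := by
      intro f hf
      exact hf.comp continuousOn_fst fun p hp => hKT hp.1
    refine continuousOn_pi.2 fun i => continuousOn_pi.2 fun j => ?_
    simp only [Matrix.add_apply, Matrix.smul_apply, smul_eq_mul]
    refine ContinuousOn.add (hf _ (hA i j)) ?_
    exact ContinuousOn.mul (Complex.continuous_ofReal.comp continuous_snd).continuousOn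
      (hf _ (hH i j))
  have hcont : ContinuousOn (fun p : Cn n × ℝ => κ p.1 *
      (A p.1 + ((p.2 : ℝ) : ℂ) • H p.1).det.re) (K ×ˢ Icc (0 : ℝ) 2) := by
    have h1 : Continuous fun M : Matrix (Fin n) (Fin n) ℂ => M.det.re :=
      Complex.continuous_re.comp continuous_id.matrix_det
    exact ((hκ.1.continuous.comp continuous_fst).continuousOn).mul
      (h1.comp_continuousOn hMat)
  obtain ⟨M, hM⟩ := (hKc.prod isCompact_Icc).exists_bound_of_continuousOn hcont
  have e1 : ∀ s : ℝ, ∫ x in T, κ x * (A x + (s : ℂ) • H x).det.re =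
      ∫ x in K, κ x * (A x + (s : ℂ) • H x).det.re := by
    intro s
    refine setIntegral_eq_of_subset_of_forall_sdiff_eq_zero hT.measurableSet hKT ?_
    intro x hx
    have : κ x = 0 := image_eq_zero_of_notMem_tsupport hx.2
    rw [this, zero_mul]
  simp only [e1]
  haveI : IsFiniteMeasure (volume.restrict K) := ⟨by
    rw [Measure.restrict_apply_univ]
    exact hKc.measure_lt_top⟩
  refine continuousOn_of_dominated (bound := fun _ => M) ?_ ?_ (integrable_const _) ?_
  · intro s hs
    have h1 : ContinuousOn (fun x => κ x * (A x + (s : ℂ) • H x).det.re) K :=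
      hcont.comp (f := fun x : Cn n => (x, s)) (by fun_prop) fun x hx => ⟨hx, hs⟩
    exact h1.aestronglyMeasurable hKc.measurableSet
  · intro s hs
    refine (ae_restrict_iff' hKc.measurableSet).2 (Eventually.of_forall fun x hx => ?_)
    exact hM (x, s) ⟨hx, hs⟩
  · refine Eventually.of_forall fun x => ?_
    have h1 : Continuous fun s : ℝ => (A x + (s : ℂ) • H x).det.re := by
      refine Complex.continuous_re.comp (Continuous.matrix_det ?_)
      refine continuous_pi fun i => continuous_pi fun j => ?_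
      simp only [Matrix.add_apply, Matrix.smul_apply, smul_eq_mul]
      fun_prop
    exact (continuous_const.mul h1).continuousOn

/-- RV0. -/
theorem rv0 (hRHOI : S_RHOI.{u}) (hNULL0 : Pool.Agent.Helper95.HS.S_NULL0.{u})
    (hRVB : S_RVB.{u}) (hRB1 : S_RB1.{u}) : S_RV0.{u} := by
  intro n T G _ R H h hd k P hP κ hκ
  have hT : IsOpen T := hd.ket.et.isOpen
  obtain ⟨hr1, -⟩ := hRHOI T R h hd.ket.et hd.her
  set f : ℝ → ℝ := fun s => ∫ x in T, κ x * (rho h x + P x * h x + (s : ℂ) • H x).det.re with hf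
  have hc : ContinuousOn f (Icc (0 : ℝ) 2) := cont_vol hT hκ.test
    (A := fun x => rho h x + P x * h x) (H := H)
    (fun i j => ((hr1.smooth i j).continuousOn).add (hP.chf.smooth i j).continuousOn)
    fun i j => (hd.ket.smooth i j).continuousOn
  have hpos : ∀ s : ℝ, 0 ≤ s → 0 < f s := by
    intro s hs
    rcases hs.eq_or_lt with rfl | hs
    · have h0 := hP.vol κ hκ
      simp only [hf, Complex.ofReal_zero, zero_smul, add_zero]
      exact h0
    · obtain ⟨Q, hQ⟩ := hRB1 T R H h hd k P hP s hs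
      have h1 := (hRVB T R H h hd k P hP κ hκ).1 s Q hQ 0
      rw [add_zero] at h1
      have h2 : f s = Pool.Agent.Helper95.HS.vol T κ Q := by
        simp only [hf]
        rw [← h1]
        unfold Pool.Agent.Helper95.HS.vol
        simp
      rw [h2]
      exact (hNULL0 T R Q hQ.1 κ hκ).1
  have hne : (Icc (0 : ℝ) 2).Nonempty := ⟨0, by norm_num, by norm_num⟩
  obtain ⟨s0, hs0, hmin⟩ := isCompact_Icc.exists_isMinOn hne hc
  obtain ⟨s1, hs1, hmax⟩ := isCompact_Icc.exists_isMaxOn hne hc
  exact ⟨f s0, f s1, hpos s0 hs0.1, fun s hs hs2 => ⟨hmin ⟨hs, hs2⟩, hmax ⟨hs, hs2⟩⟩⟩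

end Pool.Agent.Helper15.RBC
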