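import Pool.Agent.Helper15.RBC.GoalsE
import Pool.Agent.Helper42.GS.GVB

/-! # RBC: volumes (copy of GVB) -/

open Complex Metric Set Filter Topology MeasureTheory
open scoped ContDiff ComplexConjugate ComplexOrder Manifold Matrix

namespace Pool.Agent.Helper15.RBC

open Pool.Agent.Helper95.Lin Pool.Agent.Helper16.Abund Pool.Agent.Helper92.Orb
  Pool.Agent.Helper10.SP Pool.Agent.Helper95.RK Pool.Agent.Helper57.HS
  Pool.Agent.Helper15.HS Pool.Agent.Helper15.GS Pool.Agent.Helper57.RBC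

universe u

/-- RVB. -/
theorem rvb (hRHOI : S_RHOI.{u}) (hMOMG : S_MOMG.{u}) (hGPF : S_RPF.{u}) : S_RVB.{u} := by
  intro n T G _ R H h hd k P hP κ hκ
  have hT : IsOpen T := hd.ket.et.isOpen
  obtain ⟨hr1, hr2, hr3, hr4, hr5⟩ := hRHOI T R h hd.ket.et hd.her
  have hHC : CHF H T := ⟨hd.ket.smooth, fun x hx => (hd.ket.posDef x hx).isHermitian,
    hd.ket.closed⟩
  have hHI : InvH R H := hd.ket.inv
  have hA : CHF (fun x => rho h x + P x * h x) T := Pool.Agent.Helper97.HS.chf_ad hT hr1 hP.chf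
  have hAI : InvH R (fun x => rho h x + P x * h x) := Pool.Agent.Helper97.HS.invH_ad hr2 hP.inv
  have hg := hGPF T R H h hd k P hP
  -- the general identity
  have key : ∀ (δ : ℝ) (Q : Cn n → Matrix (Fin n) (Fin n) ℂ),
      BKE T R H (fun x => P x * h x) δ Q →
      ∀ Z' : Cn n → Matrix (Fin n) (Fin n) ℂ, CHF Z' T → InvH R Z' →
      ∫ x in T, κ x * (Q x + Z' x).det.re =
        ∫ x in T, κ x * (rho h x + P x * h x + (δ : ℂ) • H x + Z' x).det.re := by
    intro δ Q hQ Z' hZ' hZI'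
    have hQH : HerT T R Q := ⟨hQ.1.posDef, hQ.1.smooth, hQ.1.inv⟩
    obtain ⟨hw, hrw⟩ := hr5 Q hQH
    have hZ : CHF (fun x => rho h x + P x * h x + (δ : ℂ) • H x + Z' x) T :=
      Pool.Agent.Helper97.HS.chf_ad hT (Pool.Agent.Helper97.HS.chf_ad hT hA
        (Pool.Agent.Helper97.HS.chf_sm hT hHC δ)) hZ'
    have hZI : InvH R (fun x => rho h x + P x * h x + (δ : ℂ) • H x + Z' x) :=
      Pool.Agent.Helper97.HS.invH_ad (Pool.Agent.Helper97.HS.invH_ad hAI
        (Pool.Agent.Helper97.HS.invH_sm hHI (δ : ℂ))) hZI'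
    rw [← hMOMG T R H hd.ket κ hκ _ hZ hZI _ hw]
    refine setIntegral_congr_fun hT.measurableSet fun x hx => ?_
    have h3 := hQ.2 x hx
    rw [hrw x hx] at h3
    have h4 : Q x = rho h x + LM (fun y => ld Q y - ld h y) x + P x * h x + (δ : ℂ) • H x := by
      rw [h3]
      abel
    have h2 : Q x + Z' x = rho h x + P x * h x + (δ : ℂ) • H x + Z' x +
        LM (fun y => ld Q y - ld h y) x := by
      rw [h4]
      abel
    show κ x * (Q x + Z' x).det.re = _
    rw [h2]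
  refine ⟨fun δ Q hQ t => ?_, fun Q hQ t => ?_⟩
  · rw [key δ Q hQ (fun x => (t : ℂ) • H x) (Pool.Agent.Helper97.HS.chf_sm hT hHC t)
      (Pool.Agent.Helper97.HS.invH_sm hHI (t : ℂ))]
    refine setIntegral_congr_fun hT.measurableSet fun x hx => ?_
    have h2 : rho h x + P x * h x + (δ : ℂ) • H x + (t : ℂ) • H x =
        rho h x + P x * h x + ((δ + t : ℝ) : ℂ) • H x := by
      push_cast
      rw [add_smul]
      abel
    show κ x * (rho h x + P x * h x + (δ : ℂ) • H x + (t : ℂ) • H x).det.re = _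
    rw [h2]
  · have h0 := key 0 Q hQ (fun x => ((0 : ℝ) : ℂ) • (P x * h x))
      (Pool.Agent.Helper97.HS.chf_sm hT hP.chf 0)
      (Pool.Agent.Helper97.HS.invH_sm hP.inv ((0 : ℝ) : ℂ))
    simp only [Complex.ofReal_zero, zero_smul, add_zero] at h0
    rw [key 0 Q hQ (fun x => (t : ℂ) • (P x * h x)) (Pool.Agent.Helper97.HS.chf_sm hT hP.chf t)
      (Pool.Agent.Helper97.HS.invH_sm hP.inv (t : ℂ)), h0, ← integral_const_mul]
    refine setIntegral_congr_fun hT.measurableSet fun x hx => ?_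
    obtain ⟨e1, e2⟩ := (hg x hx).2.2.2.1 (t : ℂ)
    have h2 : rho h x + P x * h x + ((0 : ℝ) : ℂ) • H x + (t : ℂ) • (P x * h x) =
        rho h x + (1 + (t : ℂ)) • (P x * h x) := by
      rw [Complex.ofReal_zero, zero_smul, add_zero, add_smul, one_smul]
      abel
    show κ x * (rho h x + P x * h x + ((0 : ℝ) : ℂ) • H x + (t : ℂ) • (P x * h x)).det.re =
      (1 + t) ^ k * (κ x * (rho h x + P x * h x).det.re)
    rw [h2, e1, Matrix.det_mul, e2]
    have h3 : ((1 + (t : ℂ)) ^ k) = (((1 + t) ^ k : ℝ) : ℂ) := by push_cast; rfl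
    rw [h3, Complex.re_ofReal_mul]
    ring

end Pool.Agent.Helper15.RBC
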